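import Pool.Agent.V1154.BraidAbs

open Classical

namespace Pool.Agent.V1154.BraidAbs

variable {A : Type*} {R : A → A → Prop} {C : Set (ℕ → A)}

/-- a labelling of the two letters at each centre by `hi` and `lo` -/
structure Lab (R : A → A → Prop) (C : Set (ℕ → A)) (hi lo : ℕ → A) : Prop where
  pair : ∀ p, ∀ g ∈ C, avail R p g → (g p = hi p ∧ g (p+1) = lo p) ∨ (g p = lo p ∧ g (p+1) = hi p)
  adj : ∀ p, p ∈ P R C → p+2 ∈ P R C → (hi p = lo (p+2)) ∨ (lo p = hi (p+2))

lemma Lab.swap {hi lo : ℕ → A} (L : Lab R C hi lo) : Lab R C lo hi :=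
  ⟨fun p g hg h => (L.pair p g hg h).symm, fun p h1 h2 => (L.adj p h1 h2).symm⟩

lemma Sys.exists_lab [Nonempty A] (H : Sys R C) : ∃ hi lo : ℕ → A, Lab R C hi lo := by
  have h0 : ∀ p : ℕ, ∃ ST : A × A, ∀ g ∈ C, avail R p g →
      (g p = ST.1 ∧ g (p+1) = ST.2) ∨ (g p = ST.2 ∧ g (p+1) = ST.1) := by
    intro p
    by_cases hp : p ∈ P R C
    · obtain ⟨f, hf, hpf⟩ := hp
      refine ⟨(f p, f (p+1)), fun g hg hpg => ?_⟩
      exact H.pair' hf hg hpf hpg
    · obtain ⟨a⟩ := ‹Nonempty A›
      exact ⟨(a, a), fun g hg hpg => absurd ⟨g, hg, hpg⟩ hp⟩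
  choose ST hST using h0
  let X : ℕ → Bool → A := fun p o => if o then (ST p).1 else (ST p).2
  have hXX : ∀ (p : ℕ) (o : Bool), ∀ g ∈ C, avail R p g →
      (g p = X p o ∧ g (p+1) = X p (!o)) ∨ (g p = X p (!o) ∧ g (p+1) = X p o) := by
    intro p o g hg h
    rcases hST p g hg h with h1 | h1 <;> cases o <;> simp [X, h1.1, h1.2]
  have h1 : ∀ (p : ℕ) (o : Bool), ∃ o' : Bool, p ∈ P R C → p+2 ∈ P R C →
      (X p o = X (p+2) (!o')) ∨ (X p (!o) = X (p+2) o') := by
    intro p o
    by_cases hp : p ∈ P R C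
    · by_cases hq : p+2 ∈ P R C
      · obtain ⟨f, hf, hpf⟩ := hp
        obtain ⟨g, hg, hqg⟩ := hq
        obtain ⟨cs, hv, rfl⟩ := H.conn f hf g hg
        obtain ⟨h, hh, hph, k, hk, hqk, e1, e2⟩ := H.common _ cs f rfl hf hv p hpf hqg
        -- shared letter is h (p+2) = h p = k (p+2)
        have e3 : k (p+2) = h p := by rw [e1]; exact hph.2
        rcases hXX p o h hh hph with a1 | a1
        · rcases hXX (p+2) true k hk hqk with a2 | a2
          · -- X p o = b = X (p+2) true ; want !o' = true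
            refine ⟨false, fun _ _ => Or.inl ?_⟩
            rw [← a1.1, ← e3, a2.1]; rfl
          · refine ⟨true, fun _ _ => Or.inl ?_⟩
            rw [← a1.1, ← e3, a2.1]
        · rcases hXX (p+2) true k hk hqk with a2 | a2
          · refine ⟨true, fun _ _ => Or.inr ?_⟩
            rw [← a1.1, ← e3, a2.1]
          · refine ⟨false, fun _ _ => Or.inr ?_⟩
            rw [← a1.1, ← e3, a2.1]; rfl
      · exact ⟨true, fun _ h => absurd h hq⟩
    · exact ⟨true, fun h => absurd h hp⟩
  choose nxt hnxt using h1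
  let F : ℕ → Bool × Bool := fun n => Nat.rec (true, true) (fun n x => (x.2, nxt n x.1)) n
  let o : ℕ → Bool := fun n => (F n).1
  have ho : ∀ n, o (n+2) = nxt n (o n) := fun n => rfl
  refine ⟨fun p => X p (o p), fun p => X p (!(o p)), ⟨fun p g hg h => hXX p (o p) g hg h,
    fun p hp hq => ?_⟩⟩
  have := hnxt p (o p) hp hq
  rw [← ho p] at this
  exact this

variable {hi lo : ℕ → A}

lemma Lab.ne (H : Sys R C) (L : Lab R C hi lo) {p : ℕ} (hp : p ∈ P R C) : hi p ≠ lo p := by
  obtain ⟨g, hg, h⟩ := hp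
  have := H.irr h.1
  rcases L.pair p g hg h with h1 | h1
  · rw [h1.1, h1.2] at this; exact this
  · rw [h1.1, h1.2] at this; exact this.symm

lemma Lab.rel (H : Sys R C) (L : Lab R C hi lo) {p : ℕ} (hp : p ∈ P R C) : R (hi p) (lo p) := by
  obtain ⟨g, hg, h⟩ := hp
  have := h.1
  rcases L.pair p g hg h with h1 | h1
  · rw [h1.1, h1.2] at this; exact this
  · rw [h1.1, h1.2] at this; exact H.sym _ _ this

lemma Lab.center (H : Sys R C) (L : Lab R C hi lo) {p : ℕ} (hp : p ∈ P R C) :
    ∀ w ∈ C, w (p+1) = hi p ∨ w (p+1) = lo p := by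
  obtain ⟨g, hg, h⟩ := hp
  have hpP : p ∈ P R C := ⟨g, hg, h⟩
  refine H.induct _ hg ?_ ?_
  · rcases L.pair p g hg h with h1 | h1
    · right; exact h1.2
    · left; exact h1.2
  · intro w hw c hc hQ
    have hcP : c ∈ P R C := ⟨w, hw, hc⟩
    by_cases hcp : c = p
    · subst hcp
      rw [mv_1]
      rcases L.pair c w hw hc with h1 | h1
      · left; exact h1.1
      · right; exact h1.1
    · have h1 : c ≠ p+1 := by rintro rfl; exact H.notP hpP hcP
      have h2 : p ≠ c+1 := by rintro rfl; exact H.notP hcP hpP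
      rw [mv_of_ne w (by omega) (by omega) (by omega)]
      exact hQ

lemma Lab.right (H : Sys R C) (L : Lab R C hi lo) {p : ℕ} (hp : p ∈ P R C)
    (hq : p+2 ∉ P R C) :
    ∀ w ∈ C, (w (p+1) = hi p ∧ w (p+2) = lo p) ∨ (w (p+1) = lo p ∧ w (p+2) = hi p) := by
  obtain ⟨g, hg, h⟩ := hp
  have hpP : p ∈ P R C := ⟨g, hg, h⟩
  refine H.induct _ hg ?_ ?_
  · rw [h.2]
    rcases L.pair p g hg h with h1 | h1
    · right; exact ⟨h1.2, h1.1⟩
    · left; exact ⟨h1.2, h1.1⟩
  · intro w hw c hc hQ
    have hcP : c ∈ P R C := ⟨w, hw, hc⟩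
    by_cases hcp : c = p
    · subst hcp
      rw [mv_1, mv_2]
      rcases L.pair c w hw hc with h1 | h1
      · left; exact h1
      · right; exact h1
    · have h1 : c ≠ p+1 := by rintro rfl; exact H.notP hpP hcP
      have h2 : p ≠ c+1 := by rintro rfl; exact H.notP hcP hpP
      have h3 : c ≠ p+2 := by rintro rfl; exact hq hcP
      rw [mv_of_ne w (by omega) (by omega) (by omega), mv_of_ne w (by omega) (by omega) (by omega)]
      exact hQ

lemma Lab.left (H : Sys R C) (L : Lab R C hi lo) {p : ℕ} (hp : p ∈ P R C)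
    (hq : ∀ q, p = q+2 → q ∉ P R C) :
    ∀ w ∈ C, (w p = hi p ∧ w (p+1) = lo p) ∨ (w p = lo p ∧ w (p+1) = hi p) := by
  obtain ⟨g, hg, h⟩ := hp
  have hpP : p ∈ P R C := ⟨g, hg, h⟩
  refine H.induct _ hg (L.pair p g hg h) ?_
  intro w hw c hc hQ
  have hcP : c ∈ P R C := ⟨w, hw, hc⟩
  by_cases hcp : c = p
  · subst hcp
    rw [mv_0, mv_1]
    rcases L.pair c w hw hc with h1 | h1
    · right; exact ⟨h1.2, h1.1⟩
    · left; exact ⟨h1.2, h1.1⟩
  · have h1 : c ≠ p+1 := by rintro rfl; exact H.notP hpP hcP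
    have h2 : p ≠ c+1 := by rintro rfl; exact H.notP hcP hpP
    have h3 : p ≠ c+2 := by intro h; exact hq c h hcP
    rw [mv_of_ne w (by omega) (by omega) (by omega), mv_of_ne w (by omega) (by omega) (by omega)]
    exact hQ

/-- the three states around two centres at distance two, in the first type -/
lemma Lab.triple (H : Sys R C) (L : Lab R C hi lo) {p : ℕ} (hp : p ∈ P R C)
    (hq : p+2 ∈ P R C) (ht : hi p = lo (p+2)) :
    ∀ w ∈ C, (w (p+1) = hi p ∧ w (p+2) = lo p ∧ w (p+3) = hi (p+2)) ∨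
      (w (p+1) = lo p ∧ w (p+2) = hi p ∧ w (p+3) = hi (p+2)) ∨
      (w (p+1) = lo p ∧ w (p+2) = hi (p+2) ∧ w (p+3) = lo (p+2)) := by
  have hne1 := L.ne H hp
  have hne2 := L.ne H hq
  have hex : ∃ h ∈ C, avail R p h ∧ ∃ k ∈ C, avail R (p+2) k ∧ k (p+2) = h (p+2) ∧
      k (p+3) = h (p+3) := by
    obtain ⟨f, hf, hpf⟩ := hp
    obtain ⟨g, hg, hqg⟩ := hq
    obtain ⟨cs, hv, rfl⟩ := H.conn f hf g hg
    exact H.common _ cs f rfl hf hv p hpf hqg
  obtain ⟨h, hh, hph, k, hk, hqk, e1, e2⟩ := hex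
  have hns : h (p+3) ≠ h (p+1) := by
    intro he
    refine H.ns h hh p hph ⟨?_, he⟩
    change R (h (p+1)) (h (p+2))
    rw [hph.2]
    exact H.sym _ _ hph.1
  refine H.induct _ hh ?_ ?_
  · -- initial state
    rcases L.pair p h hh hph with a1 | a1
    · rcases L.pair (p+2) k hk hqk with a2 | a2
      · exfalso
        -- k (p+2) = hi (p+2) = h (p+2) = h p = hi p = lo (p+2)
        apply hne2
        rw [← a2.1, e1, hph.2, a1.1, ht]
      · right; left
        refine ⟨a1.2, ?_, ?_⟩
        · rw [hph.2]; exact a1.1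
        · rw [← e2]; exact a2.2
    · exfalso
      rcases L.pair (p+2) k hk hqk with a2 | a2
      · apply hns
        rw [← e2, a1.2, ht]
        exact a2.2
      · apply hne1
        rw [← a1.1, ht, ← a2.1, e1, hph.2]
  · intro w hw c hc hQ
    have hcP : c ∈ P R C := ⟨w, hw, hc⟩
    by_cases hcp : c = p
    · subst hcp
      rw [mv_1, mv_2, mv_of_ne w (by omega) (by omega) (by omega)]
      have hc2 := hc.2
      rcases L.pair c w hw hc with h1 | h1
      · rcases hQ with hQ | hQ | hQ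
        · exact absurd (hQ.1.symm.trans h1.2) hne1
        · left; exact ⟨h1.1, h1.2, hQ.2.2⟩
        · exfalso
          apply hne2
          rw [← hQ.2.1, hc2, h1.1, ht]
      · rcases hQ with hQ | hQ | hQ
        · right; left; exact ⟨h1.1, h1.2, hQ.2.2⟩
        · exact absurd (h1.2.symm.trans hQ.1) hne1
        · exact absurd (h1.2.symm.trans hQ.1) hne1
    by_cases hcq : c = p+2
    · subst hcq
      rw [mv_0, show p+3 = p+2+1 from rfl, mv_1, mv_of_ne w (by omega) (by omega) (by omega)]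
      rcases L.pair (p+2) w hw hc with h1 | h1
      · have h12 : w (p+3) = lo (p+2) := h1.2
        rcases hQ with hQ | hQ | hQ
        · exact absurd (hQ.2.2.symm.trans h12) hne2
        · exact absurd (hQ.2.2.symm.trans h12) hne2
        · right; left
          exact ⟨hQ.1, by rw [h1.2, ht], h1.1⟩
      · have h12 : w (p+3) = hi (p+2) := h1.2
        rcases hQ with hQ | hQ | hQ
        · exfalso
          apply hne1
          rw [← hQ.2.1, h1.1, ht]
        · right; right
          exact ⟨hQ.1, h1.2, h1.1⟩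
        · exact absurd (h12.symm.trans hQ.2.2) hne2
    · have h1 : c ≠ p+1 := by rintro rfl; exact H.notP hp hcP
      have h2 : p ≠ c+1 := by rintro rfl; exact H.notP hcP hp
      have h3 : c ≠ p+3 := by rintro rfl; exact H.notP hq hcP
      rw [mv_of_ne w (by omega) (by omega) (by omega), mv_of_ne w (by omega) (by omega) (by omega),
        mv_of_ne w (by omega) (by omega) (by omega)]
      exact hQ

/-- right blocked -/
lemma Lab.blockR (H : Sys R C) (L : Lab R C hi lo) {p : ℕ} (hp : p ∈ P R C) {w : ℕ → A}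
    (hw : w ∈ C) (h1 : w (p+1) = lo p) (h2 : w (p+2) ≠ hi p) :
    p+2 ∈ P R C ∧ w (p+3) = lo (p+2) ∧ w (p+2) = hi (p+2) := by
  have hne1 := L.ne H hp
  by_cases hq : p+2 ∈ P R C
  · refine ⟨hq, ?_⟩
    rcases L.adj p hp hq with ht | ht
    · rcases L.triple H hp hq ht w hw with h | h | h
      · exact absurd (h.1.symm.trans h1) hne1
      · exact absurd h.2.1 h2
      · exact ⟨h.2.2, h.2.1⟩
    · exfalso
      rcases L.swap.triple H hp hq ht w hw with h | h | h
      · exact h2 h.2.1
      · exact hne1 (h.1.symm.trans h1)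
      · exact hne1 (h.1.symm.trans h1)
  · exfalso
    rcases L.right H hp hq w hw with h | h
    · exact hne1 (h.1.symm.trans h1)
    · exact h2 h.2

/-- left blocked -/
lemma Lab.blockL (H : Sys R C) (L : Lab R C hi lo) {p : ℕ} (hp : p ∈ P R C) {w : ℕ → A}
    (hw : w ∈ C) (h1 : w (p+1) = lo p) (h2 : w p ≠ hi p) :
    ∃ q, p = q+2 ∧ q ∈ P R C ∧ w (q+1) = lo q := by
  have hne1 := L.ne H hp
  by_contra hcon
  by_cases hex : ∃ q, p = q+2 ∧ q ∈ P R C
  · obtain ⟨q, rfl, hq⟩ := hex
    rcases L.adj q hq hp with ht | ht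
    · rcases L.triple H hq hp ht w hw with h | h | h
      · exact hne1 (h.2.2.symm.trans h1)
      · exact hne1 (h.2.2.symm.trans h1)
      · exact h2 h.2.1
    · rcases L.swap.triple H hq hp ht w hw with h | h | h
      · exact hcon ⟨q, rfl, hq, h.1⟩
      · exact h2 (h.2.1.trans ht)
      · exact hne1 (h.2.2.symm.trans h1)
  · push Not at hex
    rcases L.left H hp hex w hw with h | h
    · exact h2 h.1
    · exact hne1 (h.2.symm.trans h1)

lemma Lab.up (H : Sys R C) (L : Lab R C hi lo) (F : Finset ℕ) (hF : ∀ p, p ∈ F ↔ p ∈ P R C)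
    {w : ℕ → A} (hw : w ∈ C) (hex : ∃ p ∈ F, w (p+1) = lo p) :
    ∃ p ∈ F, avail R p w ∧ w (p+1) = lo p := by
  by_cases hA : ∃ p ∈ F, w (p+1) = lo p ∧ w p = hi p
  · have hne : (F.filter (fun p => w (p+1) = lo p ∧ w p = hi p)).Nonempty := by
      obtain ⟨p, hp, h⟩ := hA
      exact ⟨p, by rw [Finset.mem_filter]; exact ⟨hp, h⟩⟩
    obtain ⟨p, hp, hmax⟩ := Finset.exists_max_image _ (fun p => p) hne
    rw [Finset.mem_filter] at hp
    refine ⟨p, hp.1, ⟨?_, ?_⟩, hp.2.1⟩
    · rw [hp.2.1, hp.2.2]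
      exact L.rel H ((hF p).mp hp.1)
    · rw [hp.2.2]
      by_contra h2
      obtain ⟨b1, b2, b3⟩ := L.blockR H ((hF p).mp hp.1) hw hp.2.1 h2
      have := hmax (p+2) (by
        rw [Finset.mem_filter]
        exact ⟨(hF _).mpr b1, b2, b3⟩)
      omega
  · exfalso
    have hne : (F.filter (fun p => w (p+1) = lo p)).Nonempty := by
      obtain ⟨p, hp, h⟩ := hex
      exact ⟨p, by rw [Finset.mem_filter]; exact ⟨hp, h⟩⟩
    obtain ⟨p, hp, hmin⟩ := Finset.exists_min_image _ (fun p => p) hne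
    rw [Finset.mem_filter] at hp
    have h2 : w p ≠ hi p := fun h => hA ⟨p, hp.1, hp.2, h⟩
    obtain ⟨q, hq, b1, b2⟩ := L.blockL H ((hF p).mp hp.1) hw hp.2 h2
    have := hmin q (by
      rw [Finset.mem_filter]
      exact ⟨(hF _).mpr b1, b2⟩)
    omega

lemma Sys.center_other (H : Sys R C) {w : ℕ → A} (hw : w ∈ C) {c p : ℕ} (hc : avail R c w)
    (hp : p ∈ P R C) (hne : p ≠ c) : mv c w (p+1) = w (p+1) := by
  have hcP : c ∈ P R C := ⟨w, hw, hc⟩
  have h1 : c ≠ p+1 := by rintro rfl; exact H.notP hp hcP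
  have h2 : p ≠ c+1 := by rintro rfl; exact H.notP hcP hp
  exact mv_of_ne w (by omega) (by omega) (by omega)

lemma Lab.upPath (H : Sys R C) (L : Lab R C hi lo) (F : Finset ℕ) (hF : ∀ p, p ∈ F ↔ p ∈ P R C) :
    ∀ (n : ℕ) (w : ℕ → A), w ∈ C → (F.filter (fun p => w (p+1) = lo p)).card = n →
    ∃ cs, Valid R w cs ∧ cs.length = n ∧ ∀ p ∈ F, app w cs (p+1) = hi p := by
  intro n
  induction n with
  | zero =>
    intro w hw hn
    refine ⟨[], trivial, rfl, fun p hp => ?_⟩
    rw [Finset.card_eq_zero] at hn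
    rcases L.center H ((hF p).mp hp) w hw with h | h
    · exact h
    · have : p ∈ F.filter (fun p => w (p+1) = lo p) := by
        rw [Finset.mem_filter]; exact ⟨hp, h⟩
      rw [hn] at this
      simp at this
  | succ n ih =>
    intro w hw hn
    have hne : (F.filter (fun p => w (p+1) = lo p)).Nonempty := by
      rw [← Finset.card_pos, hn]; omega
    obtain ⟨p0, hp0⟩ := hne
    rw [Finset.mem_filter] at hp0
    obtain ⟨p, hp, hav, hlo⟩ := L.up H F hF hw ⟨p0, hp0.1, hp0.2⟩
    have hpP := (hF p).mp hp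
    have hw' := H.closed w hw p hav
    have hcard : (F.filter (fun q => mv p w (q+1) = lo q)).card = n := by
      have : F.filter (fun q => mv p w (q+1) = lo q) =
          (F.filter (fun q => w (q+1) = lo q)).erase p := by
        ext q
        rw [Finset.mem_erase, Finset.mem_filter, Finset.mem_filter]
        by_cases hqp : q = p
        · subst hqp
          rw [mv_1]
          constructor
          · rintro ⟨_, h⟩
            exfalso
            rcases L.pair q w hw hav with h1 | h1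
            · exact L.ne H hpP (h1.1.symm.trans h)
            · exact L.ne H hpP (h1.2.symm.trans hlo)
          · rintro ⟨h, _⟩
            exact absurd rfl h
        · constructor
          · rintro ⟨h1, h2⟩
            rw [H.center_other hw hav ((hF q).mp h1) hqp] at h2
            exact ⟨hqp, h1, h2⟩
          · rintro ⟨_, h1, h2⟩
            refine ⟨h1, ?_⟩
            rw [H.center_other hw hav ((hF q).mp h1) hqp]
            exact h2
      rw [this, Finset.card_erase_of_mem (by rw [Finset.mem_filter]; exact ⟨hp, hlo⟩), hn]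
      rfl
    obtain ⟨cs, h1, h2, h3⟩ := ih _ hw' hcard
    exact ⟨p :: cs, ⟨hav, h1⟩, by simp [h2], h3⟩

/-- words are determined by the centre letters -/
lemma Lab.unique (H : Sys R C) (L : Lab R C hi lo) {w w' : ℕ → A} (hw : w ∈ C) (hw' : w' ∈ C)
    (h : ∀ p ∈ P R C, w (p+1) = w' (p+1)) : w = w' := by
  funext i
  by_cases hc : ∃ p ∈ P R C, i = p+1
  · obtain ⟨p, hp, rfl⟩ := hc
    exact h p hp
  by_cases hi2 : ∃ p ∈ P R C, i = p+2
  · obtain ⟨p, hp, rfl⟩ := hi2
    have e := h p hp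
    have hne := L.ne H hp
    by_cases hq : p+2 ∈ P R C
    · have e2 := h (p+2) hq
      rw [show p+2+1 = p+3 from rfl] at e2
      have hne2 := L.ne H hq
      rcases L.adj p hp hq with ht | ht
      · rcases L.triple H hp hq ht w hw with a | a | a <;>
          rcases L.triple H hp hq ht w' hw' with b | b | b
        · rw [a.2.1, b.2.1]
        · exact absurd (a.1.symm.trans (e.trans b.1)) hne
        · exact absurd (a.1.symm.trans (e.trans b.1)) hne
        · exact absurd (b.1.symm.trans (e.symm.trans a.1)) hne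
        · rw [a.2.1, b.2.1]
        · exact absurd (a.2.2.symm.trans (e2.trans b.2.2)) hne2
        · exact absurd (b.1.symm.trans (e.symm.trans a.1)) hne
        · exact absurd (b.2.2.symm.trans (e2.symm.trans a.2.2)) hne2
        · rw [a.2.1, b.2.1]
      · rcases L.swap.triple H hp hq ht w hw with a | a | a <;>
          rcases L.swap.triple H hp hq ht w' hw' with b | b | b
        · rw [a.2.1, b.2.1]
        · exact absurd (b.1.symm.trans (e.symm.trans a.1)) hne
        · exact absurd (b.1.symm.trans (e.symm.trans a.1)) hne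
        · exact absurd (a.1.symm.trans (e.trans b.1)) hne
        · rw [a.2.1, b.2.1]
        · exact absurd (b.2.2.symm.trans (e2.symm.trans a.2.2)) hne2
        · exact absurd (a.1.symm.trans (e.trans b.1)) hne
        · exact absurd (a.2.2.symm.trans (e2.trans b.2.2)) hne2
        · rw [a.2.1, b.2.1]
    · rcases L.right H hp hq w hw with a | a <;> rcases L.right H hp hq w' hw' with b | b
      · rw [a.2, b.2]
      · exact absurd (a.1.symm.trans (e.trans b.1)) hne
      · exact absurd (b.1.symm.trans (e.symm.trans a.1)) hne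
      · rw [a.2, b.2]
  by_cases hi0 : i ∈ P R C
  · have e := h i hi0
    have hne := L.ne H hi0
    have hnq : ∀ q, i = q+2 → q ∉ P R C := fun q hq hqP => hi2 ⟨q, hqP, hq⟩
    rcases L.left H hi0 hnq w hw with a | a <;> rcases L.left H hi0 hnq w' hw' with b | b
    · rw [a.1, b.1]
    · exact absurd (b.2.symm.trans (e.symm.trans a.2)) hne
    · exact absurd (a.2.symm.trans (e.trans b.2)) hne
    · rw [a.1, b.1]
  · obtain ⟨cs, hv, rfl⟩ := H.conn w hw w' hw'
    refine (unchanged cs w (fun c hcm => ?_)).symm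
    have hcP := H.mem_P_of_mem hw hv hcm
    refine ⟨?_, ?_, ?_⟩
    · rintro rfl; exact hi0 hcP
    · rintro rfl; exact hc ⟨c, hcP, rfl⟩
    · rintro rfl; exact hi2 ⟨c, hcP, rfl⟩

lemma Sys.reverse (H : Sys R C) : ∀ (cs : List ℕ) (f : ℕ → A), Valid R f cs →
    ∃ ds, Valid R (app f cs) ds ∧ app (app f cs) ds = f ∧ ds.length = cs.length := by
  intro cs
  induction cs with
  | nil => intro f _; exact ⟨[], trivial, rfl, rfl⟩
  | cons c cs ih =>
    intro f hv
    obtain ⟨ds, h1, h2, h3⟩ := ih _ hv.2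
    refine ⟨ds ++ [c], ?_, ?_, by simp [h3]⟩
    · rw [app, Valid_append]
      refine ⟨h1, ?_⟩
      rw [h2]
      exact ⟨avail_mv H.sym hv.1, trivial⟩
    · rw [app, app_append, h2]
      exact mv_mv hv.1

/-- The abstract theorem. -/
theorem Sys.main [Nonempty A] (H : Sys R C) (hC : C.Nonempty) (F : Finset ℕ)
    (hF : ∀ p, p ∈ F ↔ p ∈ P R C) :
    ∃ u ∈ C, ∃ v ∈ C, (∀ w ∈ C, ∃ cs ds, Valid R u cs ∧ app u cs = w ∧ Valid R w ds ∧
      app w ds = v ∧ cs.length + ds.length = F.card) ∧
      ∀ es, Valid R u es → app u es = v → F.card ≤ es.length := by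
  obtain ⟨hi, lo, L⟩ := H.exists_lab
  obtain ⟨w0, hw0⟩ := hC
  obtain ⟨cs0, v1, _, v3⟩ := L.upPath H F hF _ w0 hw0 rfl
  obtain ⟨ds0, d1, _, d3⟩ := L.swap.upPath H F hF _ w0 hw0 rfl
  set v := app w0 cs0 with hv
  set u := app w0 ds0 with hu
  have hvC : v ∈ C := H.app_mem cs0 w0 hw0 v1
  have huC : u ∈ C := H.app_mem ds0 w0 hw0 d1
  refine ⟨u, huC, v, hvC, ?_, ?_⟩
  · intro w hw
    obtain ⟨as, a1, a2, a3⟩ := L.upPath H F hF _ w hw rfl
    obtain ⟨bs, b1, b2, b3⟩ := L.swap.upPath H F hF _ w hw rfl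
    have ev : app w as = v := L.unique H (H.app_mem as w hw a1) hvC (fun p hp => by
      rw [a3 p ((hF p).mpr hp), v3 p ((hF p).mpr hp)])
    have eu : app w bs = u := L.unique H (H.app_mem bs w hw b1) huC (fun p hp => by
      rw [b3 p ((hF p).mpr hp), d3 p ((hF p).mpr hp)])
    obtain ⟨bs', c1, c2, c3⟩ := H.reverse bs w b1
    rw [eu] at c1 c2
    refine ⟨bs', as, c1, c2, a1, ev, ?_⟩
    rw [c3, b2, a2]
    have hdisj : Disjoint (F.filter (fun p => w (p+1) = hi p))
        (F.filter (fun p => w (p+1) = lo p)) := by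
      rw [Finset.disjoint_left]
      intro p h1 h2
      rw [Finset.mem_filter] at h1 h2
      exact L.ne H ((hF p).mp h1.1) (h1.2.symm.trans h2.2)
    rw [← Finset.card_union_of_disjoint hdisj]
    congr 1
    ext p
    rw [Finset.mem_union, Finset.mem_filter, Finset.mem_filter]
    constructor
    · rintro (h | h)
      · exact h.1
      · exact h.1
    · intro hp
      rcases L.center H ((hF p).mp hp) w hw with h | h
      · left; exact ⟨hp, h⟩
      · right; exact ⟨hp, h⟩
  · intro es hes hev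
    have hsub : F ⊆ es.toFinset := by
      intro p hp
      rw [List.mem_toFinset]
      by_contra hpe
      have hpP := (hF p).mp hp
      have e1 : app u es (p+1) = u (p+1) := unchanged es u (fun c hc => by
        have hcP := H.mem_P_of_mem huC hes hc
        have h0 : c ≠ p := by rintro rfl; exact hpe hc
        have h1 : c ≠ p+1 := by rintro rfl; exact H.notP hpP hcP
        have h2 : p ≠ c+1 := by rintro rfl; exact H.notP hcP hpP
        omega)
      rw [hev, v3 p hp, d3 p hp] at e1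
      exact L.ne H hpP e1
    exact (Finset.card_le_card hsub).trans (List.toFinset_card_le es)

end Pool.Agent.V1154.BraidAbs
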