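import Mathlib

/-!
# Simplicial cones modulo generic equality

For a finite set `S` of vectors in an open half-space, the indicator functions of the simplicial
cones spanned by bases contained in `S` have an integral basis.
-/

set_option autoImplicit false

namespace Pool.Agent.V1154.ConeGen

open Finset Module

variable {W : Type} [AddCommGroup W] [Module ℝ W]

/-- nonnegative combinations -/
def InCone (B : Finset W) (x : W) : Prop :=
  ∃ f : W → ℝ, (∀ b ∈ B, 0 ≤ f b) ∧ ∑ b ∈ B, f b • b = x

open Classical in
/-- the indicator function of a cone -/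
noncomputable def ind (B : Finset W) (x : W) : ℝ := if InCone B x then 1 else 0

open Classical in
/-- the bases of `H` contained in `S` -/
noncomputable def Bas (S : Finset W) (H : Submodule ℝ W) : Finset (Finset W) :=
  S.powerset.filter fun B => LinearIndepOn ℝ id (B : Set W) ∧ Submodule.span ℝ (B : Set W) = H

theorem mem_Bas {S : Finset W} {H : Submodule ℝ W} {B : Finset W} :
    B ∈ Bas S H ↔ B ⊆ S ∧ LinearIndepOn ℝ id (B : Set W) ∧
      Submodule.span ℝ (B : Set W) = H := by
  classical
  simp [Bas]

/-- `p` holds at all points of `H` outside finitely many subspaces not containing `H` -/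
def Gen (H : Submodule ℝ W) (p : W → Prop) : Prop :=
  ∃ K : Finset (Submodule ℝ W), (∀ L ∈ K, ¬ H ≤ L) ∧ ∀ x ∈ H, (∀ L ∈ K, x ∉ L) → p x

theorem Gen.mono {H : Submodule ℝ W} {p q : W → Prop} (h : Gen H p)
    (hpq : ∀ x ∈ H, p x → q x) : Gen H q := by
  obtain ⟨K, h1, h2⟩ := h
  exact ⟨K, h1, fun x hx hxK => hpq x hx (h2 x hx hxK)⟩

theorem Gen.and {H : Submodule ℝ W} {p q : W → Prop} (h : Gen H p) (h' : Gen H q) :
    Gen H (fun x => p x ∧ q x) := by
  classical
  obtain ⟨K, h1, h2⟩ := h
  obtain ⟨K', h1', h2'⟩ := h'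
  refine ⟨K ∪ K', ?_, ?_⟩
  · intro L hL
    rcases Finset.mem_union.1 hL with hL | hL
    · exact h1 L hL
    · exact h1' L hL
  · intro x hx hxK
    exact ⟨h2 x hx fun L hL => hxK L (Finset.mem_union_left _ hL),
      h2' x hx fun L hL => hxK L (Finset.mem_union_right _ hL)⟩

theorem Gen.of_forall {H : Submodule ℝ W} {p : W → Prop} (h : ∀ x ∈ H, p x) : Gen H p :=
  ⟨∅, by simp, fun x hx _ => h x hx⟩

theorem Gen.finset {H : Submodule ℝ W} {ι : Type} (s : Finset ι) {p : ι → W → Prop}
    (h : ∀ i ∈ s, Gen H (p i)) : Gen H (fun x => ∀ i ∈ s, p i x) := by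
  classical
  induction s using Finset.induction_on with
  | empty => exact Gen.of_forall (by simp)
  | insert a s ha ih =>
    have h1 := h a (Finset.mem_insert_self _ _)
    have h2 := ih (fun i hi => h i (Finset.mem_insert_of_mem hi))
    apply (h1.and h2).mono
    intro x _ hx i hi
    rcases Finset.mem_insert.1 hi with rfl | hi
    · exact hx.1
    · exact hx.2 i hi

theorem mem_span_iff {B : Finset W} {x : W} :
    x ∈ Submodule.span ℝ (B : Set W) ↔ ∃ f : W → ℝ, ∑ b ∈ B, f b • b = x := by
  rw [Submodule.mem_span_finset]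
  constructor
  · rintro ⟨f, -, h⟩; exact ⟨f, h⟩
  · rintro ⟨f, rfl⟩
    classical
    refine ⟨fun b => if b ∈ B then f b else 0, ?_, ?_⟩
    · intro b hb
      rw [Function.mem_support] at hb
      by_contra hn
      exact hb (if_neg hn)
    · apply Finset.sum_congr rfl
      intro b hb
      simp only [if_pos hb]

theorem unique_coord {B : Finset W} (hB : LinearIndepOn ℝ id (B : Set W)) {f g : W → ℝ}
    (h : ∑ b ∈ B, f b • b = ∑ b ∈ B, g b • b) : ∀ b ∈ B, f b = g b :=
  linearIndepOn_finset_iffₛ.1 hB f g h

theorem li_of_coord {B : Finset W}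
    (h : ∀ f : W → ℝ, ∑ b ∈ B, f b • b = 0 → ∀ b ∈ B, f b = 0) :
    LinearIndepOn ℝ id (B : Set W) := by
  rw [linearIndepOn_finset_iffₛ]
  intro f g hfg b hb
  have := h (fun b => f b - g b) (by
    simp only [sub_smul, Finset.sum_sub_distrib]
    rw [sub_eq_zero]
    exact hfg) b hb
  exact sub_eq_zero.1 this

/-- the cone over `C` with apex direction `v` -/
theorem inCone_insert [DecidableEq W] {C : Finset W} {L : Submodule ℝ W} {v h : W} {τ : ℝ}
    (hC : Submodule.span ℝ (C : Set W) = L) (hv : v ∉ L) (hh : h ∈ L) :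
    InCone (insert v C) (h + τ • v) ↔ InCone C h ∧ 0 ≤ τ := by
  have hvC : v ∉ C := fun hv' => hv (hC ▸ Submodule.subset_span hv')
  constructor
  · rintro ⟨f, hf, hs⟩
    rw [Finset.sum_insert hvC] at hs
    have hmem : ∑ b ∈ C, f b • b ∈ L := by
      rw [← hC]; exact mem_span_iff.2 ⟨f, rfl⟩
    have h1 : (f v - τ) • v = h - ∑ b ∈ C, f b • b := by
      rw [sub_smul, sub_eq_sub_iff_add_eq_add, hs]
    have h2 : (f v - τ) • v ∈ L := by rw [h1]; exact L.sub_mem hh hmem
    have h3 : f v - τ = 0 := by
      by_contra hne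
      exact hv ((L.smul_mem_iff hne).1 h2)
    rw [h3, zero_smul] at h1
    refine ⟨⟨f, fun b hb => hf b (Finset.mem_insert_of_mem hb), (sub_eq_zero.1 h1.symm).symm⟩, ?_⟩
    have := hf v (Finset.mem_insert_self _ _)
    linarith
  · rintro ⟨⟨f, hf, hs⟩, hτ⟩
    refine ⟨fun b => if b = v then τ else f b, ?_, ?_⟩
    · intro b hb
      by_cases hbv : b = v
      · simp [hbv, hτ]
      · simp only [if_neg hbv]
        exact hf b ((Finset.mem_insert.1 hb).resolve_left hbv)
    · rw [Finset.sum_insert hvC, add_comm]
      have e1 : ∑ b ∈ C, (if b = v then τ else f b) • b = h := by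
        rw [← hs]
        apply Finset.sum_congr rfl
        intro b hb
        rw [if_neg]
        rintro rfl
        exact hvC hb
      simp only [if_true]
      rw [e1]

theorem ind_insert [DecidableEq W] {C : Finset W} {L : Submodule ℝ W} {v h : W} {τ : ℝ}
    (hC : Submodule.span ℝ (C : Set W) = L) (hv : v ∉ L) (hh : h ∈ L) :
    ind (insert v C) (h + τ • v) = ind C h * if 0 ≤ τ then 1 else 0 := by
  classical
  unfold ind
  by_cases h1 : InCone C h
  · by_cases h2 : 0 ≤ τ
    · rw [if_pos ((inCone_insert hC hv hh).2 ⟨h1, h2⟩), if_pos h1, if_pos h2, mul_one]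
    · rw [if_neg (fun h3 => h2 ((inCone_insert hC hv hh).1 h3).2), if_neg h2, mul_zero]
  · rw [if_neg (fun h3 => h1 ((inCone_insert hC hv hh).1 h3).1), if_neg h1, zero_mul]

/-! ### The signed decomposition -/

/-- a statement about real numbers behind the signed decomposition of a cone -/
theorem signed_real {ι : Type} [DecidableEq ι] (B : Finset ι) (x a : ι → ℝ)
    (hx : ∀ i ∈ B, x i ≠ 0)
    (hd : ∀ i ∈ B, ∀ j ∈ B, i ≠ j → a i ≠ 0 → a j ≠ 0 → x i / a i ≠ x j / a j)
    (hpos : ∃ i ∈ B, 0 < a i) :
    (if ∀ i ∈ B, 0 ≤ x i then (1 : ℝ) else 0) =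
      ∑ i ∈ B, (SignType.sign (a i) : ℝ) *
        (if (∀ j ∈ B.erase i, 0 ≤ x j - x i / a i * a j) ∧ 0 ≤ x i / a i then 1 else 0) := by
  classical
  set Q : ι → Prop := fun i => (∀ j ∈ B.erase i, 0 ≤ x j - x i / a i * a j) ∧ 0 ≤ x i / a i with hQ
  set Ap := B.filter (fun i => 0 < a i ∧ Q i) with hAp
  set Am := B.filter (fun i => a i < 0 ∧ Q i) with hAm
  have hsum : ∑ i ∈ B, (SignType.sign (a i) : ℝ) * (if Q i then 1 else 0) =
      (Ap.card : ℝ) - (Am.card : ℝ) := by
    rw [hAp, hAm, Finset.card_filter, Finset.card_filter]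
    push_cast
    rw [← Finset.sum_sub_distrib]
    apply Finset.sum_congr rfl
    intro i _
    rcases lt_trichotomy (a i) 0 with h | h | h
    · rw [sign_neg h]
      by_cases hq : Q i
      · simp [hq, h, not_lt.2 h.le]
      · simp [hq]
    · have h0 : SignType.sign (a i) = 0 := by rw [h, sign_zero]
      rw [h0]
      simp [h]
    · rw [sign_pos h]
      by_cases hq : Q i
      · simp [hq, h, not_lt.2 h.le]
      · simp [hq]
  rw [hsum]
  -- comparison of the parameters
  have cpos : ∀ i j, 0 < a j → (0 ≤ x j - x i / a i * a j ↔ x i / a i ≤ x j / a j) := by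
    intro i j hj
    rw [sub_nonneg, le_div_iff₀ hj]
  have cneg : ∀ i j, a j < 0 → (0 ≤ x j - x i / a i * a j ↔ x j / a j ≤ x i / a i) := by
    intro i j hj
    rw [sub_nonneg, div_le_iff_of_neg hj]
  have hAp1 : Ap.card ≤ 1 := by
    rw [Finset.card_le_one]
    intro i hi j hj
    simp only [hAp, Finset.mem_filter] at hi hj
    by_contra hne
    have h1 := (cpos i j hj.2.1).1 (hi.2.2.1 j (Finset.mem_erase.2 ⟨Ne.symm hne, hj.1⟩))
    have h2 := (cpos j i hi.2.1).1 (hj.2.2.1 i (Finset.mem_erase.2 ⟨hne, hi.1⟩))
    exact hd i hi.1 j hj.1 hne hi.2.1.ne' hj.2.1.ne' (le_antisymm h1 h2)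
  have hAm1 : Am.card ≤ 1 := by
    rw [Finset.card_le_one]
    intro i hi j hj
    simp only [hAm, Finset.mem_filter] at hi hj
    by_contra hne
    have h1 := (cneg i j hj.2.1).1 (hi.2.2.1 j (Finset.mem_erase.2 ⟨Ne.symm hne, hj.1⟩))
    have h2 := (cneg j i hi.2.1).1 (hj.2.2.1 i (Finset.mem_erase.2 ⟨hne, hi.1⟩))
    exact hd i hi.1 j hj.1 hne hi.2.1.ne hj.2.1.ne (le_antisymm h2 h1)
  by_cases hall : ∀ i ∈ B, 0 ≤ x i
  · rw [if_pos hall]
    have hxp : ∀ i ∈ B, 0 < x i := fun i hi => lt_of_le_of_ne (hall i hi) (Ne.symm (hx i hi))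
    have h1 : Am = ∅ := by
      rw [Finset.eq_empty_iff_forall_notMem]
      intro i hi
      simp only [hAm, Finset.mem_filter] at hi
      have := div_neg_of_pos_of_neg (hxp i hi.1) hi.2.1
      have h2 := hi.2.2.2
      linarith
    have h2 : Ap.Nonempty := by
      obtain ⟨i0, hi0, hai0⟩ := hpos
      obtain ⟨m, hm, hmin⟩ := Finset.exists_min_image (B.filter (fun i => 0 < a i))
        (fun i => x i / a i) ⟨i0, Finset.mem_filter.2 ⟨hi0, hai0⟩⟩
      rw [Finset.mem_filter] at hm
      refine ⟨m, ?_⟩
      simp only [hAp, Finset.mem_filter]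
      have hs : 0 < x m / a m := div_pos (hxp m hm.1) hm.2
      refine ⟨hm.1, hm.2, ?_, hs.le⟩
      intro j hj
      have hjB := Finset.mem_of_mem_erase hj
      by_cases haj : 0 < a j
      · rw [cpos m j haj]
        exact hmin j (Finset.mem_filter.2 ⟨hjB, haj⟩)
      · have := mul_nonpos_of_nonneg_of_nonpos hs.le (not_lt.1 haj)
        linarith [hxp j hjB]
    have h3 : Ap.card = 1 := le_antisymm hAp1 (Finset.card_pos.2 h2)
    rw [h1, h3]
    simp
  · rw [if_neg hall]
    push Not at hall
    obtain ⟨j0, hj0, hxj0⟩ := hall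
    have hiff : Ap.Nonempty ↔ Am.Nonempty := by
      constructor
      · rintro ⟨i, hi⟩
        simp only [hAp, Finset.mem_filter] at hi
        obtain ⟨hiB, hai, hPi, hsi⟩ := hi
        have hsi' : 0 < x i / a i := lt_of_le_of_ne hsi
          (Ne.symm (div_ne_zero (hx i hiB) hai.ne'))
        have hj0i : j0 ≠ i := by
          rintro rfl
          have := (div_nonneg_iff.1 hsi)
          rcases this with h | h
          · linarith [h.1]
          · linarith [h.2]
        have haj0 : a j0 < 0 := by
          by_contra hcon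
          have h1 := hPi j0 (Finset.mem_erase.2 ⟨hj0i, hj0⟩)
          have h2 := mul_nonneg hsi'.le (not_lt.1 hcon)
          linarith
        obtain ⟨m, hm, hmax⟩ := Finset.exists_max_image (B.filter (fun i => a i < 0))
          (fun i => x i / a i) ⟨j0, Finset.mem_filter.2 ⟨hj0, haj0⟩⟩
        rw [Finset.mem_filter] at hm
        have hsm : 0 < x m / a m := lt_of_lt_of_le (div_pos_of_neg_of_neg hxj0 haj0)
          (hmax j0 (Finset.mem_filter.2 ⟨hj0, haj0⟩))
        have hmi : m ≠ i := by rintro rfl; linarith [hm.2]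
        have hle : x m / a m ≤ x i / a i :=
          (cneg i m hm.2).1 (hPi m (Finset.mem_erase.2 ⟨hmi, hm.1⟩))
        refine ⟨m, ?_⟩
        simp only [hAm, Finset.mem_filter]
        refine ⟨hm.1, hm.2, ?_, hsm.le⟩
        intro j hj
        have hjB := Finset.mem_of_mem_erase hj
        by_cases haj : a j < 0
        · rw [cneg m j haj]
          exact hmax j (Finset.mem_filter.2 ⟨hjB, haj⟩)
        · have haj' := not_lt.1 haj
          have h4 := mul_le_mul_of_nonneg_right hle haj'
          by_cases hji : j = i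
          · subst hji
            have h5 : x j / a j * a j = x j := by field_simp
            linarith
          · have h5 := hPi j (Finset.mem_erase.2 ⟨hji, hjB⟩)
            linarith
      · rintro ⟨i, hi⟩
        simp only [hAm, Finset.mem_filter] at hi
        obtain ⟨hiB, hai, hPi, hsi⟩ := hi
        obtain ⟨i0, hi0, hai0⟩ := hpos
        obtain ⟨m, hm, hmin⟩ := Finset.exists_min_image (B.filter (fun i => 0 < a i))
          (fun i => x i / a i) ⟨i0, Finset.mem_filter.2 ⟨hi0, hai0⟩⟩
        rw [Finset.mem_filter] at hm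
        have hmi : m ≠ i := by rintro rfl; linarith [hm.2]
        have hle : x i / a i ≤ x m / a m :=
          (cpos i m hm.2).1 (hPi m (Finset.mem_erase.2 ⟨hmi, hm.1⟩))
        refine ⟨m, ?_⟩
        simp only [hAp, Finset.mem_filter]
        refine ⟨hm.1, hm.2, ?_, hsi.trans hle⟩
        intro j hj
        have hjB := Finset.mem_of_mem_erase hj
        by_cases haj : 0 < a j
        · rw [cpos m j haj]
          exact hmin j (Finset.mem_filter.2 ⟨hjB, haj⟩)
        · have haj' := not_lt.1 haj
          have h4 := mul_le_mul_of_nonpos_right hle haj'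
          by_cases hji : j = i
          · subst hji
            have h5 : x j / a j * a j = x j := by
              have := hai.ne
              field_simp
            linarith
          · have h5 := hPi j (Finset.mem_erase.2 ⟨hji, hjB⟩)
            linarith
    rcases Ap.eq_empty_or_nonempty with h | h
    · have h' : Am = ∅ := by
        rw [← Finset.not_nonempty_iff_eq_empty]
        intro h2
        have := hiff.2 h2
        rw [h] at this
        exact absurd this (by simp)
      rw [h, h']
      simp
    · have h1 : Ap.card = 1 := le_antisymm hAp1 (Finset.card_pos.2 h)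
      have h2 : Am.card = 1 := le_antisymm hAm1 (Finset.card_pos.2 (hiff.1 h))
      rw [h1, h2]
      simp

theorem finrank_le_of_span {B : Finset W} : finrank ℝ (Submodule.span ℝ (B : Set W)) ≤ B.card :=
  finrank_span_finset_le_card B

theorem card_of_bas {S : Finset W} {H : Submodule ℝ W} {B : Finset W} (hB : B ∈ Bas S H) :
    finrank ℝ H = B.card := by
  obtain ⟨-, h1, h2⟩ := mem_Bas.1 hB
  rw [← h2]
  exact finrank_span_finset_eq_card h1

theorem not_le_span {H : Submodule ℝ W} {T : Finset W} (h : T.card < finrank ℝ H) :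
    ¬ H ≤ Submodule.span ℝ (T : Set W) := by
  intro hle
  have h1 := Submodule.finrank_mono hle
  have h2 := finrank_le_of_span (B := T)
  omega

/-- the signed decomposition of a simplicial cone with respect to a vector of `S` -/
theorem signed [DecidableEq W] {S : Finset W} {ℓ : W →ₗ[ℝ] ℝ} (hℓ : ∀ s ∈ S, 0 < ℓ s)
    {H : Submodule ℝ W} {B : Finset W} (hB : B ∈ Bas S H) {v : W} (hvS : v ∈ S) (hvH : v ∈ H) :
    ∃ a : W → ℝ, ∑ b ∈ B, a b • b = v ∧ Gen H (fun x => ind B x =
      ∑ b ∈ B, (SignType.sign (a b) : ℝ) * ind (insert v (B.erase b)) x) := by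
  classical
  obtain ⟨hBS, hli, hspan⟩ := mem_Bas.1 hB
  have hfr := card_of_bas hB
  obtain ⟨a, ha⟩ := mem_span_iff.1 (hspan ▸ hvH)
  have hpos : ∃ i ∈ B, 0 < a i := by
    by_contra hcon
    push Not at hcon
    have h1 : ℓ v = ∑ b ∈ B, a b * ℓ b := by
      rw [← ha, map_sum]
      apply Finset.sum_congr rfl
      intro b _
      rw [map_smul, smul_eq_mul]
    have h2 : ∑ b ∈ B, a b * ℓ b ≤ 0 :=
      Finset.sum_nonpos fun b hb =>
        mul_nonpos_of_nonpos_of_nonneg (hcon b hb) (hℓ b (hBS hb)).le
    have h3 := hℓ v hvS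
    linarith
  refine ⟨a, ha, B.image (fun b => Submodule.span ℝ ((B.erase b : Finset W) : Set W)) ∪
    ((B ×ˢ B).filter (fun p => p.1 ≠ p.2)).image
      (fun p => Submodule.span ℝ ((insert v ((B.erase p.1).erase p.2) : Finset W) : Set W)),
    ?_, ?_⟩
  · intro L hL
    rcases Finset.mem_union.1 hL with hL | hL
    · obtain ⟨b, hb, rfl⟩ := Finset.mem_image.1 hL
      apply not_le_span
      rw [hfr]
      exact Finset.card_erase_lt_of_mem hb
    · obtain ⟨⟨b, b'⟩, hp, rfl⟩ := Finset.mem_image.1 hL
      rw [Finset.mem_filter, Finset.mem_product] at hp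
      obtain ⟨⟨hb, hb'⟩, hne⟩ := hp
      simp only at hb hb' hne
      apply not_le_span
      rw [hfr]
      have h1 := Finset.card_insert_le v ((B.erase b).erase b')
      have h2 : ((B.erase b).erase b').card < (B.erase b).card :=
        Finset.card_erase_lt_of_mem (Finset.mem_erase.2 ⟨Ne.symm hne, hb'⟩)
      have h3 := Finset.card_erase_lt_of_mem hb
      show (insert v ((B.erase b).erase b')).card < B.card
      omega
  · intro x hxH hxK
    obtain ⟨xc, hxc⟩ := mem_span_iff.1 (hspan ▸ hxH)
    have hx0 : ∀ b ∈ B, xc b ≠ 0 := by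
      intro b hb h0
      apply hxK _ (Finset.mem_union_left _ (Finset.mem_image.2 ⟨b, hb, rfl⟩))
      rw [mem_span_iff]
      refine ⟨xc, ?_⟩
      rw [← hxc, ← Finset.add_sum_erase B _ hb, h0, zero_smul, zero_add]
    have hdist : ∀ i ∈ B, ∀ j ∈ B, i ≠ j → a i ≠ 0 → a j ≠ 0 → xc i / a i ≠ xc j / a j := by
      intro i hi j hj hij hai haj heq
      apply hxK _ (Finset.mem_union_right _ (Finset.mem_image.2 ⟨(i, j),
        Finset.mem_filter.2 ⟨Finset.mem_product.2 ⟨hi, hj⟩, hij⟩, rfl⟩))
      set t := xc i / a i with ht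
      have h1 : x = t • v + ∑ b ∈ (B.erase i).erase j, (xc b - t * a b) • b := by
        have e1 : ∑ b ∈ B, (xc b - t * a b) • b = x - t • v := by
          rw [← hxc, ← ha, Finset.smul_sum, ← Finset.sum_sub_distrib]
          apply Finset.sum_congr rfl
          intro b _
          rw [sub_smul, mul_smul]
        rw [← Finset.add_sum_erase B _ hi,
          ← Finset.add_sum_erase (B.erase i) _ (Finset.mem_erase.2 ⟨Ne.symm hij, hj⟩)] at e1
        have e2 : xc i - t * a i = 0 := by rw [ht]; field_simp; ring
        have e3 : xc j - t * a j = 0 := by rw [heq]; field_simp; ring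
        rw [e2, e3, zero_smul, zero_smul, zero_add, zero_add] at e1
        rw [e1]; abel
      rw [h1]
      apply Submodule.add_mem
      · apply Submodule.smul_mem
        apply Submodule.subset_span
        simp
      · apply Submodule.sum_mem
        intro b hb
        apply Submodule.smul_mem
        apply Submodule.subset_span
        rw [Finset.coe_insert]
        exact Set.mem_insert_of_mem _ hb
    have hkey := signed_real B xc a hx0 hdist hpos
    have h1 : ind B x = if ∀ i ∈ B, 0 ≤ xc i then (1 : ℝ) else 0 := by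
      unfold ind
      have : InCone B x ↔ ∀ i ∈ B, 0 ≤ xc i := by
        constructor
        · rintro ⟨f, hf, hs⟩ i hi
          rw [← unique_coord hli (hs.trans hxc.symm) i hi]
          exact hf i hi
        · intro h
          exact ⟨xc, h, hxc⟩
      simp only [this]
    rw [h1, hkey]
    apply Finset.sum_congr rfl
    intro b hb
    by_cases hab : a b = 0
    · have h0 : SignType.sign (a b) = 0 := by rw [hab, sign_zero]
      rw [h0]
      simp
    · congr 1
      set t := xc b / a b with ht
      have hvL : v ∉ Submodule.span ℝ ((B.erase b : Finset W) : Set W) := by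
        intro hcon
        obtain ⟨g, hg⟩ := mem_span_iff.1 hcon
        have h2 : ∑ j ∈ B, (if j = b then 0 else g j) • j = ∑ j ∈ B, a j • j := by
          rw [ha, ← Finset.add_sum_erase B _ hb, if_pos rfl, zero_smul, zero_add, ← hg]
          apply Finset.sum_congr rfl
          intro j hj
          rw [if_neg (Finset.ne_of_mem_erase hj)]
        have h3 := unique_coord hli h2 b hb
        rw [if_pos rfl] at h3
        exact hab h3.symm
      have hx' : x = ∑ j ∈ B.erase b, (xc j - t * a j) • j + t • v := by
        have e1 : ∑ b ∈ B, (xc b - t * a b) • b = x - t • v := by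
          rw [← hxc, ← ha, Finset.smul_sum, ← Finset.sum_sub_distrib]
          apply Finset.sum_congr rfl
          intro b _
          rw [sub_smul, mul_smul]
        rw [← Finset.add_sum_erase B _ hb] at e1
        have e2 : xc b - t * a b = 0 := by rw [ht]; field_simp; ring
        rw [e2, zero_smul, zero_add] at e1
        rw [e1]; abel
      have hmem : ∑ j ∈ B.erase b, (xc j - t * a j) • j ∈
          Submodule.span ℝ ((B.erase b : Finset W) : Set W) := mem_span_iff.2 ⟨_, rfl⟩
      have h4 := inCone_insert (C := B.erase b) (τ := t) rfl hvL hmem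
      rw [← hx'] at h4
      have hliE : LinearIndepOn ℝ id ((B.erase b : Finset W) : Set W) :=
        hli.mono (by rw [Finset.coe_erase]; exact Set.sdiff_subset)
      have h5 : InCone (B.erase b) (∑ j ∈ B.erase b, (xc j - t * a j) • j) ↔
          ∀ j ∈ B.erase b, 0 ≤ xc j - t * a j := by
        constructor
        · rintro ⟨f, hf, hs⟩ i hi
          have := unique_coord hliE hs i hi
          rw [← this]
          exact hf i hi
        · intro h
          exact ⟨fun j => xc j - t * a j, h, rfl⟩
      unfold ind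
      simp only [h4, h5]

/-- lifting a generic identity from `L` to `L ⊔ span {v}` -/
theorem lift_gen [DecidableEq W] {L H : Submodule ℝ W} {v : W} (hv : v ∉ L)
    (hH : L ⊔ Submodule.span ℝ {v} = H) {A A' : Finset (Finset W)} {α β : Finset W → ℝ}
    (hA : ∀ C ∈ A, Submodule.span ℝ (C : Set W) = L)
    (hA' : ∀ C ∈ A', Submodule.span ℝ (C : Set W) = L)
    (h : Gen L (fun x => ∑ C ∈ A, α C * ind C x = ∑ C ∈ A', β C * ind C x)) :
    Gen H (fun x => ∑ C ∈ A, α C * ind (insert v C) x = ∑ C ∈ A', β C * ind (insert v C) x) := by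
  classical
  obtain ⟨K, h1, h2⟩ := h
  refine ⟨K.image (fun M => (M ⊓ L) ⊔ Submodule.span ℝ {v}), ?_, ?_⟩
  · intro M hM
    obtain ⟨M', hM', rfl⟩ := Finset.mem_image.1 hM
    intro hle
    apply h1 M' hM'
    intro y hy
    have hyH : y ∈ H := by rw [← hH]; exact Submodule.mem_sup_left hy
    obtain ⟨z, hz, w, hw, hzw⟩ := Submodule.mem_sup.1 (hle hyH)
    obtain ⟨t, rfl⟩ := Submodule.mem_span_singleton.1 hw
    have h3 : t • v = y - z := by rw [← hzw]; abel
    have h4 : t • v ∈ L := by rw [h3]; exact L.sub_mem hy hz.2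
    have h5 : t = 0 := by
      by_contra hne
      exact hv ((L.smul_mem_iff hne).1 h4)
    rw [h5, zero_smul, add_zero] at hzw
    rw [← hzw]; exact hz.1
  · intro x hx hxK
    rw [← hH] at hx
    obtain ⟨y, hy, w, hw, rfl⟩ := Submodule.mem_sup.1 hx
    obtain ⟨t, rfl⟩ := Submodule.mem_span_singleton.1 hw
    have hyK : ∀ M ∈ K, y ∉ M := by
      intro M hM hyM
      apply hxK _ (Finset.mem_image.2 ⟨M, hM, rfl⟩)
      apply Submodule.add_mem
      · exact Submodule.mem_sup_left ⟨hyM, hy⟩
      · exact Submodule.mem_sup_right (Submodule.smul_mem _ _ (Submodule.mem_span_singleton_self v))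
    have h3 := h2 y hy hyK
    have e1 : ∑ C ∈ A, α C * ind (insert v C) (y + t • v) =
        (∑ C ∈ A, α C * ind C y) * if 0 ≤ t then 1 else 0 := by
      rw [Finset.sum_mul]
      apply Finset.sum_congr rfl
      intro C hC
      rw [ind_insert (hA C hC) hv hy, mul_assoc]
    have e2 : ∑ C ∈ A', β C * ind (insert v C) (y + t • v) =
        (∑ C ∈ A', β C * ind C y) * if 0 ≤ t then 1 else 0 := by
      rw [Finset.sum_mul]
      apply Finset.sum_congr rfl
      intro C hC
      rw [ind_insert (hA' C hC) hv hy, mul_assoc]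
    rw [e1, e2, h3]

/-- integral combinations modulo generic equality -/
def SP (H : Submodule ℝ W) (G : Finset (Finset W)) (f : W → ℝ) : Prop :=
  ∃ n : Finset W → ℤ, Gen H (fun x => f x = ∑ C ∈ G, (n C : ℝ) * ind C x)

theorem SP.congr {H : Submodule ℝ W} {G : Finset (Finset W)} {f g : W → ℝ} (h : SP H G f)
    (hfg : Gen H (fun x => g x = f x)) : SP H G g := by
  obtain ⟨n, hn⟩ := h
  exact ⟨n, (hn.and hfg).mono fun x _ hx => hx.2.trans hx.1⟩

theorem SP.zero {H : Submodule ℝ W} {G : Finset (Finset W)} : SP H G (fun _ => 0) :=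
  ⟨fun _ => 0, Gen.of_forall (by simp)⟩

theorem SP.add {H : Submodule ℝ W} {G : Finset (Finset W)} {f g : W → ℝ} (h : SP H G f)
    (h' : SP H G g) : SP H G (fun x => f x + g x) := by
  obtain ⟨n, hn⟩ := h
  obtain ⟨n', hn'⟩ := h'
  refine ⟨fun C => n C + n' C, (hn.and hn').mono fun x _ hx => ?_⟩
  simp only
  rw [hx.1, hx.2, ← Finset.sum_add_distrib]
  apply Finset.sum_congr rfl
  intro C _
  push_cast
  ring

theorem SP.int_mul {H : Submodule ℝ W} {G : Finset (Finset W)} {f : W → ℝ} (h : SP H G f)
    (z : ℤ) : SP H G (fun x => (z : ℝ) * f x) := by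
  obtain ⟨n, hn⟩ := h
  refine ⟨fun C => z * n C, hn.mono fun x _ hx => ?_⟩
  simp only
  rw [hx, Finset.mul_sum]
  apply Finset.sum_congr rfl
  intro C _
  push_cast
  ring

theorem SP.sum {H : Submodule ℝ W} {G : Finset (Finset W)} {ι : Type} (s : Finset ι)
    {f : ι → W → ℝ} (h : ∀ i ∈ s, SP H G (f i)) : SP H G (fun x => ∑ i ∈ s, f i x) := by
  classical
  induction s using Finset.induction_on with
  | empty => simpa using SP.zero
  | insert a s ha ih =>
    have h1 := h a (Finset.mem_insert_self _ _)
    have h2 := ih (fun i hi => h i (Finset.mem_insert_of_mem hi))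
    have h3 := h1.add h2
    apply h3.congr
    apply Gen.of_forall
    intro x _
    rw [Finset.sum_insert ha]

theorem SP.mono_fam {H : Submodule ℝ W} {G G' : Finset (Finset W)} (hGG : G ⊆ G') {f : W → ℝ}
    (h : SP H G f) : SP H G' f := by
  classical
  obtain ⟨n, hn⟩ := h
  refine ⟨fun C => if C ∈ G then n C else 0, hn.mono fun x _ hx => ?_⟩
  rw [hx]
  have : ∑ C ∈ G, (n C : ℝ) * ind C x =
      ∑ C ∈ G, ((if C ∈ G then n C else 0 : ℤ) : ℝ) * ind C x := by
    apply Finset.sum_congr rfl
    intro C hC
    rw [if_pos hC]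
  rw [this]
  apply Finset.sum_subset hGG
  intro C _ hC
  rw [if_neg hC]
  simp

theorem bas_insert [DecidableEq W] {S : Finset W} {L : Submodule ℝ W} {C : Finset W}
    (hC : C ∈ Bas S L) {v : W} (hvS : v ∈ S) (hvL : v ∉ L) :
    insert v C ∈ Bas S (L ⊔ Submodule.span ℝ {v}) := by
  obtain ⟨h1, h2, h3⟩ := mem_Bas.1 hC
  rw [mem_Bas]
  refine ⟨?_, ?_, ?_⟩
  · intro x hx
    rcases Finset.mem_insert.1 hx with rfl | hx
    · exact hvS
    · exact h1 hx
  · rw [Finset.coe_insert]
    exact h2.id_insert (by rw [h3]; exact hvL)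
  · rw [Finset.coe_insert, Submodule.span_insert, h3, sup_comm]

theorem erase_mem_bas [DecidableEq W] {S : Finset W} {H : Submodule ℝ W} {B : Finset W}
    (hB : B ∈ Bas S H) (v : W) :
    B.erase v ∈ Bas S (Submodule.span ℝ ((B.erase v : Finset W) : Set W)) := by
  obtain ⟨h1, h2, h3⟩ := mem_Bas.1 hB
  rw [mem_Bas]
  refine ⟨(Finset.erase_subset _ _).trans h1, h2.mono ?_, rfl⟩
  rw [Finset.coe_erase]; exact Set.sdiff_subset

theorem notMem_span_erase [DecidableEq W] {S : Finset W} {H : Submodule ℝ W} {B : Finset W}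
    (hB : B ∈ Bas S H) {v : W} (hv : v ∈ B) :
    v ∉ Submodule.span ℝ ((B.erase v : Finset W) : Set W) := by
  obtain ⟨h1, h2, h3⟩ := mem_Bas.1 hB
  intro hcon
  obtain ⟨g, hg⟩ := mem_span_iff.1 hcon
  have e : ∑ j ∈ B, (if j = v then 0 else g j) • j = ∑ j ∈ B, (if j = v then 1 else 0 : ℝ) • j := by
    have e1 : ∑ j ∈ B, (if j = v then 0 else g j) • j = v := by
      rw [← Finset.add_sum_erase B _ hv, if_pos rfl, zero_smul, zero_add]
      refine (Finset.sum_congr rfl ?_).trans hg
      intro j hj
      rw [if_neg (Finset.ne_of_mem_erase hj)]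
    have e2 : ∑ j ∈ B, (if j = v then 1 else 0 : ℝ) • j = v := by
      rw [← Finset.add_sum_erase B _ hv, if_pos rfl, one_smul]
      rw [Finset.sum_eq_zero, add_zero]
      intro j hj
      rw [if_neg (Finset.ne_of_mem_erase hj), zero_smul]
    rw [e1, e2]
  have := unique_coord h2 e v hv
  rw [if_pos rfl, if_pos rfl] at this
  exact zero_ne_one this

theorem span_erase_sup [DecidableEq W] {S : Finset W} {H : Submodule ℝ W} {B : Finset W}
    (hB : B ∈ Bas S H) {v : W} (hv : v ∈ B) :
    Submodule.span ℝ ((B.erase v : Finset W) : Set W) ⊔ Submodule.span ℝ {v} = H := by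
  obtain ⟨h1, h2, h3⟩ := mem_Bas.1 hB
  rw [← h3, sup_comm, ← Submodule.span_insert, ← Finset.coe_insert, Finset.insert_erase hv]

open Filter Topology in
/-- small parameters avoid a proper subspace -/
theorem eventually_avoid {K : Submodule ℝ W} {h v : W} (hK : v ∈ K → h ∉ K) :
    ∀ᶠ ε in 𝓝[>] (0 : ℝ), h + ε • v ∉ K := by
  by_cases hv : v ∈ K
  · apply Filter.Eventually.of_forall
    intro ε hcon
    apply hK hv
    have := K.sub_mem hcon (K.smul_mem ε hv)
    rwa [add_sub_cancel_right] at this
  · by_cases hex : ∃ t : ℝ, 0 < t ∧ h + t • v ∈ K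
    · obtain ⟨t, ht, htK⟩ := hex
      filter_upwards [Ioo_mem_nhdsGT ht] with ε hε hcon
      have h1 := K.sub_mem htK hcon
      have h2 : h + t • v - (h + ε • v) = (t - ε) • v := by rw [sub_smul]; abel
      rw [h2] at h1
      exact hv ((K.smul_mem_iff (sub_ne_zero.2 hε.2.ne')).1 h1)
    · push Not at hex
      filter_upwards [self_mem_nhdsWithin] with ε hε
      exact hex ε hε

open Filter Topology in
/-- The main structural theorem: an integral basis of the cone functions. -/
theorem good (S : Finset W) (ℓ : W →ₗ[ℝ] ℝ) (hℓ : ∀ s ∈ S, 0 < ℓ s) :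
    ∀ (k : ℕ) (H : Submodule ℝ W), finrank ℝ H = k →
      ∃ G : Finset (Finset W), G ⊆ Bas S H ∧ (∀ B ∈ Bas S H, SP H G (ind B)) ∧
        ∀ c : Finset W → ℝ, Gen H (fun x => ∃ z : ℤ, ∑ C ∈ G, c C * ind C x = z) →
          ∀ C ∈ G, ∃ z : ℤ, c C = z := by
  classical
  intro k
  induction k with
  | zero =>
    intro H hH
    by_cases hne : (Bas S H).Nonempty
    · obtain ⟨B0, hB0⟩ := hne
      have hcard : ∀ B ∈ Bas S H, B = ∅ := by
        intro B hB
        have := card_of_bas hB
        rw [hH] at this
        exact Finset.card_eq_zero.1 this.symm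
      have hB0e := hcard B0 hB0
      subst hB0e
      have hbot : H = ⊥ := by
        rw [← (mem_Bas.1 hB0).2.2]; simp
      refine ⟨{∅}, ?_, ?_, ?_⟩
      · intro B hB
        rw [Finset.mem_singleton] at hB
        rw [hB]; exact hB0
      · intro B hB
        rw [hcard B hB]
        exact ⟨fun _ => 1, Gen.of_forall (by simp)⟩
      · rintro c ⟨K, hK1, hK2⟩ C hC
        rw [Finset.mem_singleton] at hC
        subst hC
        obtain ⟨z, hz⟩ := hK2 0 H.zero_mem (fun L hL => by
          exfalso
          apply hK1 L hL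
          rw [hbot]; exact bot_le)
        refine ⟨z, ?_⟩
        have h1 : ind (∅ : Finset W) 0 = 1 := by
          unfold ind
          rw [if_pos]
          exact ⟨fun _ => 0, by simp, by simp⟩
        rw [Finset.sum_singleton, h1, mul_one] at hz
        exact hz
    · rw [Finset.not_nonempty_iff_eq_empty] at hne
      refine ⟨∅, by simp, ?_, by simp⟩
      intro B hB
      rw [hne] at hB
      exact absurd hB (Finset.notMem_empty B)
  | succ k ih =>
    intro H hH
    by_cases hne : (Bas S H).Nonempty
    swap
    · rw [Finset.not_nonempty_iff_eq_empty] at hne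
      refine ⟨∅, by simp, ?_, by simp⟩
      intro B hB
      rw [hne] at hB
      exact absurd hB (Finset.notMem_empty B)
    obtain ⟨B0, hB0⟩ := hne
    have hB0c := card_of_bas hB0
    obtain ⟨v, hvB0⟩ : B0.Nonempty := by
      rw [← Finset.card_pos]; omega
    have hvS : v ∈ S := (mem_Bas.1 hB0).1 hvB0
    have hvH : v ∈ H := by
      rw [← (mem_Bas.1 hB0).2.2]; exact Submodule.subset_span hvB0
    have hfinH : Module.Finite ℝ H := by
      rw [← (mem_Bas.1 hB0).2.2]
      exact FiniteDimensional.span_finset ℝ B0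
    set HH : Finset (Submodule ℝ W) := ((Bas S H).filter (fun B => v ∈ B)).image
      (fun B => Submodule.span ℝ ((B.erase v : Finset W) : Set W)) with hHH
    have hL : ∀ L ∈ HH, v ∉ L ∧ L ⊔ Submodule.span ℝ {v} = H ∧ finrank ℝ L = k ∧
        (Bas S L).Nonempty := by
      intro L hL
      obtain ⟨B, hB, rfl⟩ := Finset.mem_image.1 hL
      rw [Finset.mem_filter] at hB
      refine ⟨notMem_span_erase hB.1 hB.2, span_erase_sup hB.1 hB.2, ?_,
        ⟨_, erase_mem_bas hB.1 v⟩⟩
      rw [card_of_bas (erase_mem_bas hB.1 v), Finset.card_erase_of_mem hB.2]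
      have := card_of_bas hB.1
      omega
    have hfin : ∀ L ∈ HH, Module.Finite ℝ L := by
      intro L hL'
      obtain ⟨B, hB⟩ := (hL L hL').2.2.2
      rw [← (mem_Bas.1 hB).2.2]
      exact FiniteDimensional.span_finset ℝ B
    choose! G hG1 hG2 hG3 using fun (L : Submodule ℝ W) (h : finrank ℝ L = k) => ih L h
    set GH : Finset (Finset W) := HH.biUnion (fun L => (G L).image (fun C => insert v C)) with hGH
    have hspanC : ∀ L ∈ HH, ∀ C ∈ G L, Submodule.span ℝ (C : Set W) = L := by
      intro L hL' C hC
      exact (mem_Bas.1 (hG1 L (hL L hL').2.2.1 hC)).2.2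
    have hvC : ∀ L ∈ HH, ∀ C ∈ G L, v ∉ C := by
      intro L hL' C hC hv
      apply (hL L hL').1
      rw [← hspanC L hL' C hC]
      exact Submodule.subset_span hv
    have hinj : ∀ L ∈ HH, Set.InjOn (fun C : Finset W => insert v C) (G L : Set (Finset W)) := by
      intro L hL' C hC C' hC' h
      have h1 : (insert v C).erase v = (insert v C').erase v := by
        simp only at h
        rw [h]
      rwa [Finset.erase_insert (hvC L hL' C hC), Finset.erase_insert (hvC L hL' C' hC')] at h1
    refine ⟨GH, ?_, ?_, ?_⟩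
    · intro B hB
      rw [hGH, Finset.mem_biUnion] at hB
      obtain ⟨L, hL', hB⟩ := hB
      obtain ⟨C, hC, rfl⟩ := Finset.mem_image.1 hB
      rw [← (hL L hL').2.1]
      exact bas_insert (hG1 L (hL L hL').2.2.1 hC) hvS (hL L hL').1
    · -- every cone is an integral combination
      intro B hB
      obtain ⟨a, ha, hgen⟩ := signed hℓ hB hvS hvH
      have hterm : ∀ b ∈ B, SP H GH (fun x =>
          (SignType.sign (a b) : ℝ) * ind (insert v (B.erase b)) x) := by
        intro b hb
        by_cases hab : a b = 0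
        · have h0 : SignType.sign (a b) = 0 := by rw [hab, sign_zero]
          rw [h0]
          apply SP.zero.congr
          exact Gen.of_forall (by simp)
        · -- the hyperplane
          set L := Submodule.span ℝ ((B.erase b : Finset W) : Set W) with hLdef
          have hli := (mem_Bas.1 hB).2.1
          have hvL : v ∉ L := by
            intro hcon
            obtain ⟨g, hg⟩ := mem_span_iff.1 hcon
            have h2 : ∑ j ∈ B, (if j = b then 0 else g j) • j = ∑ j ∈ B, a j • j := by
              rw [ha, ← Finset.add_sum_erase B _ hb, if_pos rfl, zero_smul, zero_add, ← hg]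
              apply Finset.sum_congr rfl
              intro j hj
              rw [if_neg (Finset.ne_of_mem_erase hj)]
            have h3 := unique_coord hli h2 b hb
            rw [if_pos rfl] at h3
            exact hab h3.symm
          have hCb : B.erase b ∈ Bas S L := erase_mem_bas hB b
          have hvE : v ∉ B.erase b := fun h => hvL (Submodule.subset_span h)
          have hBv := bas_insert hCb hvS hvL
          have hsup : L ⊔ Submodule.span ℝ {v} = H := by
            apply Submodule.eq_of_le_of_finrank_eq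
            · rw [sup_le_iff]
              constructor
              · rw [hLdef, ← (mem_Bas.1 hB).2.2]
                exact Submodule.span_mono (Finset.coe_subset.2 (Finset.erase_subset _ _))
              · rw [Submodule.span_singleton_le_iff_mem]; exact hvH
            · rw [card_of_bas hBv, card_of_bas hB, Finset.card_insert_of_notMem hvE,
                Finset.card_erase_of_mem hb]
              have := Finset.card_pos.2 ⟨b, hb⟩
              omega
          rw [hsup] at hBv
          have hLHH : L ∈ HH := by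
            rw [hHH, Finset.mem_image]
            refine ⟨insert v (B.erase b), Finset.mem_filter.2 ⟨hBv, Finset.mem_insert_self _ _⟩, ?_⟩
            rw [Finset.erase_insert hvE]
          obtain ⟨n, hn⟩ := hG2 L (hL L hLHH).2.2.1 _ hCb
          have hlift := lift_gen (A := {B.erase b}) (A' := G L) (α := fun _ => 1)
            (β := fun C => (n C : ℝ)) hvL hsup
            (by intro C hC; rw [Finset.mem_singleton] at hC; rw [hC])
            (hspanC L hLHH) (by simpa using hn)
          have hSP1 : SP H ((G L).image (fun C => insert v C)) (ind (insert v (B.erase b))) := by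
            refine ⟨fun C => n (C.erase v), hlift.mono fun x _ hx => ?_⟩
            rw [Finset.sum_singleton, one_mul] at hx
            rw [hx, Finset.sum_image (hinj L hLHH)]
            apply Finset.sum_congr rfl
            intro C hC
            show (n C : ℝ) * _ = (n ((insert v C).erase v) : ℝ) * _
            rw [Finset.erase_insert (hvC L hLHH C hC)]
          have hSP2 : SP H GH (ind (insert v (B.erase b))) :=
            hSP1.mono_fam (by
              rw [hGH]
              exact Finset.subset_biUnion_of_mem (fun L => (G L).image (fun C => insert v C)) hLHH)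
          have := hSP2.int_mul ((SignType.sign (a b) : SignType) : ℤ)
          apply this.congr
          apply Gen.of_forall
          intro x _
          congr 1
          cases SignType.sign (a b) <;> simp
      have hsum := SP.sum B hterm
      exact hsum.congr hgen
    · -- integrality of coefficients
      rintro c ⟨K, hK1, hK2⟩ B hB
      rw [hGH, Finset.mem_biUnion] at hB
      obtain ⟨L, hL', hB⟩ := hB
      obtain ⟨C0, hC0, rfl⟩ := Finset.mem_image.1 hB
      -- the total as a double sum
      set g : Submodule ℝ W → W → ℝ := fun L x => ∑ C ∈ G L, c (insert v C) * ind (insert v C) x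
        with hg
      have htot : ∀ x, ∑ C ∈ GH, c C * ind C x = ∑ L ∈ HH, g L x := by
        intro x
        rw [hGH, Finset.sum_biUnion]
        · apply Finset.sum_congr rfl
          intro L hL'
          rw [Finset.sum_image (hinj L hL')]
        · intro L1 hL1 L2 hL2 hne12
          rw [Function.onFun, Finset.disjoint_left]
          intro D hD1 hD2
          obtain ⟨C1, hC1, rfl⟩ := Finset.mem_image.1 hD1
          obtain ⟨C2, hC2, h12⟩ := Finset.mem_image.1 hD2
          apply hne12
          have h3 : (insert v C1).erase v = (insert v C2).erase v := by rw [h12]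
          rw [Finset.erase_insert (hvC L1 hL1 C1 hC1), Finset.erase_insert (hvC L2 hL2 C2 hC2)] at h3
          rw [← hspanC L1 hL1 C1 hC1, ← hspanC L2 hL2 C2 hC2, h3]
      have hgval : ∀ L ∈ HH, ∀ h ∈ L, ∀ t : ℝ, g L (h + t • v) =
          (∑ C ∈ G L, c (insert v C) * ind C h) * if 0 ≤ t then 1 else 0 := by
        intro L hL' h hh t
        rw [hg, Finset.sum_mul]
        apply Finset.sum_congr rfl
        intro C hC
        rw [ind_insert (hspanC L hL' C hC) (hL L hL').1 hh, mul_assoc]
      apply hG3 L (hL L hL').2.2.1 (fun C => c (insert v C)) _ C0 hC0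
      refine ⟨(HH.erase L) ∪ K.filter (fun M => v ∈ M), ?_, ?_⟩
      · intro M hM hle
        rcases Finset.mem_union.1 hM with hM | hM
        · have h1 := Finset.mem_of_mem_erase hM
          have h2 := Finset.ne_of_mem_erase hM
          have := hfin M h1
          apply h2
          symm
          apply Submodule.eq_of_le_of_finrank_eq hle
          rw [(hL L hL').2.2.1, (hL M h1).2.2.1]
        · rw [Finset.mem_filter] at hM
          apply hK1 M hM.1
          rw [← (hL L hL').2.1, sup_le_iff]
          exact ⟨hle, (Submodule.span_singleton_le_iff_mem _ _).2 hM.2⟩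
      · intro h hh hav
        have hhH : h ∈ H := by
          rw [← (hL L hL').2.1]; exact Submodule.mem_sup_left hh
        -- small parameters
        have hA : ∀ᶠ ε in 𝓝[>] (0 : ℝ), ∀ M ∈ K, h + ε • v ∉ M := by
          rw [eventually_all_finset]
          intro M hM
          apply eventually_avoid
          intro hvM
          exact hav M (Finset.mem_union_right _ (Finset.mem_filter.2 ⟨hM, hvM⟩))
        have hB' : ∀ᶠ ε in 𝓝[>] (0 : ℝ), ∀ M ∈ K, h + ε • (-v) ∉ M := by
          rw [eventually_all_finset]
          intro M hM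
          apply eventually_avoid
          intro hvM
          rw [Submodule.neg_mem_iff] at hvM
          exact hav M (Finset.mem_union_right _ (Finset.mem_filter.2 ⟨hM, hvM⟩))
        have hC : ∀ᶠ ε in 𝓝[>] (0 : ℝ), ∀ M ∈ HH.erase L,
            g M (h + ε • v) = g M (h + ε • (-v)) := by
          rw [eventually_all_finset]
          intro M hM
          have hMH := Finset.mem_of_mem_erase hM
          have hhM : h ∉ M := hav M (Finset.mem_union_left _ hM)
          have hmem := hhH
          rw [← (hL M hMH).2.1] at hmem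
          obtain ⟨y, hy, w, hw, hyw⟩ := Submodule.mem_sup.1 hmem
          obtain ⟨t, rfl⟩ := Submodule.mem_span_singleton.1 hw
          have ht : t ≠ 0 := by
            rintro rfl
            rw [zero_smul, add_zero] at hyw
            exact hhM (hyw ▸ hy)
          filter_upwards [Ioo_mem_nhdsGT (abs_pos.2 ht)] with ε hε
          have e1 : h + ε • v = y + (t + ε) • v := by rw [← hyw, add_smul]; abel
          have e2 : h + ε • (-v) = y + (t - ε) • v := by
            rw [← hyw, sub_smul, smul_neg]; abel
          rw [e1, e2, hgval M hMH y hy, hgval M hMH y hy]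
          congr 1
          rcases lt_or_gt_of_ne ht with h1 | h1
          · rw [abs_of_neg h1] at hε
            rw [if_neg (by linarith [hε.2]), if_neg (by linarith [hε.1])]
          · rw [abs_of_pos h1] at hε
            rw [if_pos (by linarith [hε.1]), if_pos (by linarith [hε.2])]
        obtain ⟨ε, ⟨⟨hε1, hε2⟩, hε3⟩, hε0⟩ :=
          (((hA.and hB').and hC).and self_mem_nhdsWithin).exists
        have hε0' : (0 : ℝ) < ε := hε0
        obtain ⟨z1, hz1⟩ := hK2 (h + ε • v) (H.add_mem hhH (H.smul_mem _ hvH)) hε1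
        obtain ⟨z2, hz2⟩ := hK2 (h + ε • (-v))
          (H.add_mem hhH (H.smul_mem _ (H.neg_mem hvH))) hε2
        rw [htot, ← Finset.add_sum_erase HH _ hL'] at hz1 hz2
        have hrest : ∑ M ∈ HH.erase L, g M (h + ε • v) = ∑ M ∈ HH.erase L, g M (h + ε • (-v)) :=
          Finset.sum_congr rfl hε3
        have e1 := hgval L hL' h hh ε
        have e2 := hgval L hL' h hh (-ε)
        rw [if_pos hε0'.le, mul_one] at e1
        rw [if_neg (by linarith), mul_zero, neg_smul, ← smul_neg] at e2
        refine ⟨z1 - z2, ?_⟩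
        push_cast
        rw [← hz1, ← hz2, hrest, e1, e2]
        ring

end Pool.Agent.V1154.ConeGen
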