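import Mathlib

/-!
# Weighted generating functions of constrained families (used for arbor polytopes)
-/

set_option autoImplicit false

namespace Pool.Agent.V1154.ArborGF

open Finset PowerSeries

variable {α : Type} [DecidableEq α]

/-- the constrained configurations of total `s` -/
noncomputable def conf (m : ℕ) (E : Finset α) (F : Finset (Finset α)) (s : ℕ) :
    Finset (α → ℕ) :=
  (Finset.piAntidiag E s).filter (fun x => ∀ D ∈ F, ∑ i ∈ D, x i ≤ m * D.card)

theorem mem_conf {m : ℕ} {E : Finset α} {F : Finset (Finset α)} {s : ℕ} {x : α → ℕ} :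
    x ∈ conf m E F s ↔ (∑ i ∈ E, x i = s ∧ ∀ i, x i ≠ 0 → i ∈ E) ∧
      ∀ D ∈ F, ∑ i ∈ D, x i ≤ m * D.card := by
  rw [conf, Finset.mem_filter, Finset.mem_piAntidiag]

/-- weighted generating function -/
noncomputable def GF (m : ℕ) (κ : ℕ → ℤ) (E : Finset α) (F : Finset (Finset α)) : ℤ⟦X⟧ :=
  PowerSeries.mk fun s => ∑ x ∈ conf m E F s, ∏ i ∈ E, κ (x i)

theorem coeff_GF (m : ℕ) (κ : ℕ → ℤ) (E : Finset α) (F : Finset (Finset α)) (s : ℕ) :
    coeff s (GF m κ E F) = ∑ x ∈ conf m E F s, ∏ i ∈ E, κ (x i) := by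
  rw [GF, coeff_mk]

/-- restriction of a configuration -/
def res (E : Finset α) (x : α → ℕ) : α → ℕ := fun i => if i ∈ E then x i else 0

theorem res_sum {E D : Finset α} (h : D ⊆ E) (x : α → ℕ) : ∑ i ∈ D, res E x i = ∑ i ∈ D, x i := by
  apply Finset.sum_congr rfl
  intro i hi
  rw [res, if_pos (h hi)]

theorem res_supp {E : Finset α} {x : α → ℕ} {i : α} (h : res E x i ≠ 0) : i ∈ E := by
  by_contra hi
  exact h (by rw [res, if_neg hi])

theorem GF_union (m : ℕ) (κ : ℕ → ℤ) {E1 E2 : Finset α} (hd : Disjoint E1 E2)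
    {F1 F2 : Finset (Finset α)} (h1 : ∀ D ∈ F1, D ⊆ E1) (h2 : ∀ D ∈ F2, D ⊆ E2) :
    GF m κ (E1 ∪ E2) (F1 ∪ F2) = GF m κ E1 F1 * GF m κ E2 F2 := by
  classical
  ext s
  rw [coeff_mul, coeff_GF]
  simp only [coeff_GF]
  have hR : ∀ p : ℕ × ℕ, (∑ x ∈ conf m E1 F1 p.1, ∏ i ∈ E1, κ (x i)) *
      (∑ x ∈ conf m E2 F2 p.2, ∏ i ∈ E2, κ (x i)) =
      ∑ q ∈ conf m E1 F1 p.1 ×ˢ conf m E2 F2 p.2,
        (∏ i ∈ E1, κ (q.1 i)) * (∏ i ∈ E2, κ (q.2 i)) := by
    intro p
    rw [Finset.sum_mul_sum, Finset.sum_product]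
  simp only [hR]
  rw [Finset.sum_sigma']
  have hz1 : ∀ {x y : α → ℕ}, (∀ i, x i ≠ 0 → i ∈ E1) → (∀ i, y i ≠ 0 → i ∈ E2) →
      ∀ i ∈ E1, y i = 0 := by
    intro x y _ hy i hi
    by_contra hne
    exact (Finset.disjoint_left.1 hd hi) (hy i hne)
  have hz2 : ∀ {x y : α → ℕ}, (∀ i, x i ≠ 0 → i ∈ E1) → (∀ i, y i ≠ 0 → i ∈ E2) →
      ∀ i ∈ E2, x i = 0 := by
    intro x y hx _ i hi
    by_contra hne
    exact (Finset.disjoint_left.1 hd (hx i hne)) hi
  refine Finset.sum_nbij'
    (i := fun x => (⟨(∑ i ∈ E1, x i, ∑ i ∈ E2, x i), (res E1 x, res E2 x)⟩ :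
      (_ : ℕ × ℕ) × ((α → ℕ) × (α → ℕ))))
    (j := fun p => p.2.1 + p.2.2) ?_ ?_ ?_ ?_ ?_
  · intro x hx
    rw [mem_conf] at hx
    obtain ⟨⟨hx1, hx2⟩, hx3⟩ := hx
    rw [Finset.mem_sigma]
    refine ⟨?_, ?_⟩
    · rw [Finset.HasAntidiagonal.mem_antidiagonal, ← hx1, Finset.sum_union hd]
    · rw [Finset.mem_product]
      refine ⟨?_, ?_⟩
      · rw [mem_conf]
        refine ⟨⟨res_sum (Finset.Subset.refl _) x, fun i hi => res_supp hi⟩, ?_⟩
        intro D hD
        rw [res_sum (h1 D hD)]
        exact hx3 D (Finset.mem_union_left _ hD)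
      · rw [mem_conf]
        refine ⟨⟨res_sum (Finset.Subset.refl _) x, fun i hi => res_supp hi⟩, ?_⟩
        intro D hD
        rw [res_sum (h2 D hD)]
        exact hx3 D (Finset.mem_union_right _ hD)
  · rintro ⟨⟨a, b⟩, ⟨x, y⟩⟩ hp
    rw [Finset.mem_sigma, Finset.HasAntidiagonal.mem_antidiagonal, Finset.mem_product] at hp
    obtain ⟨hab, hx, hy⟩ := hp
    simp only at hab hx hy
    rw [mem_conf] at hx hy
    obtain ⟨⟨hx1, hx2⟩, hx3⟩ := hx
    obtain ⟨⟨hy1, hy2⟩, hy3⟩ := hy
    rw [mem_conf]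
    refine ⟨⟨?_, ?_⟩, ?_⟩
    · rw [Finset.sum_union hd, ← hab, ← hx1, ← hy1]
      congr 1
      · apply Finset.sum_congr rfl
        intro i hi
        simp [hz1 hx2 hy2 i hi]
      · apply Finset.sum_congr rfl
        intro i hi
        simp [hz2 hx2 hy2 i hi]
    · intro i hi
      rw [Finset.mem_union]
      by_contra hne
      push Not at hne
      apply hi
      have e1 : x i = 0 := by
        by_contra h; exact hne.1 (hx2 i h)
      have e2 : y i = 0 := by
        by_contra h; exact hne.2 (hy2 i h)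
      simp [e1, e2]
    · intro D hD
      rcases Finset.mem_union.1 hD with hD | hD
      · have : ∑ i ∈ D, (x + y) i = ∑ i ∈ D, x i := by
          apply Finset.sum_congr rfl
          intro i hi
          simp [hz1 hx2 hy2 i (h1 D hD hi)]
        simp only
        rw [this]
        exact hx3 D hD
      · have : ∑ i ∈ D, (x + y) i = ∑ i ∈ D, y i := by
          apply Finset.sum_congr rfl
          intro i hi
          simp [hz2 hx2 hy2 i (h2 D hD hi)]
        simp only
        rw [this]
        exact hy3 D hD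
  · intro x hx
    rw [mem_conf] at hx
    obtain ⟨⟨hx1, hx2⟩, hx3⟩ := hx
    funext i
    simp only [Pi.add_apply, res]
    by_cases h1 : i ∈ E1
    · have h2 : i ∉ E2 := Finset.disjoint_left.1 hd h1
      simp [h1, h2]
    · by_cases h2 : i ∈ E2
      · simp [h1, h2]
      · have : x i = 0 := by
          by_contra hne
          rcases Finset.mem_union.1 (hx2 i hne) with h | h
          · exact h1 h
          · exact h2 h
        simp [h1, h2, this]
  · rintro ⟨⟨a, b⟩, ⟨x, y⟩⟩ hp
    rw [Finset.mem_sigma, Finset.HasAntidiagonal.mem_antidiagonal, Finset.mem_product] at hp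
    obtain ⟨hab, hx, hy⟩ := hp
    simp only at hab hx hy
    rw [mem_conf] at hx hy
    obtain ⟨⟨hx1, hx2⟩, hx3⟩ := hx
    obtain ⟨⟨hy1, hy2⟩, hy3⟩ := hy
    have e1 : ∑ i ∈ E1, (x + y) i = a := by
      rw [← hx1]
      apply Finset.sum_congr rfl
      intro i hi
      simp [hz1 hx2 hy2 i hi]
    have e2 : ∑ i ∈ E2, (x + y) i = b := by
      rw [← hy1]
      apply Finset.sum_congr rfl
      intro i hi
      simp [hz2 hx2 hy2 i hi]
    have e3 : res E1 (x + y) = x := by
      funext i
      simp only [res, Pi.add_apply]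
      split_ifs with h
      · simp [hz1 hx2 hy2 i h]
      · by_contra hne
        exact h (hx2 i (fun h0 => hne h0.symm))
    have e4 : res E2 (x + y) = y := by
      funext i
      simp only [res, Pi.add_apply]
      split_ifs with h
      · simp [hz2 hx2 hy2 i h]
      · by_contra hne
        exact h (hy2 i (fun h0 => hne h0.symm))
    simp only [e1, e2, e3, e4]
  · intro x hx
    rw [Finset.prod_union hd]
    congr 1
    · apply Finset.prod_congr rfl
      intro i hi
      simp [res, hi]
    · apply Finset.prod_congr rfl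
      intro i hi
      simp [res, hi]

theorem GF_empty (m : ℕ) (κ : ℕ → ℤ) : GF m κ (∅ : Finset α) ∅ = 1 := by
  ext s
  rw [coeff_GF, coeff_one]
  by_cases hs : s = 0
  · subst hs
    have : conf m (∅ : Finset α) ∅ 0 = {0} := by
      ext x
      rw [mem_conf, Finset.mem_singleton]
      constructor
      · rintro ⟨⟨-, h⟩, -⟩
        funext i
        by_contra hne
        exact absurd (h i hne) (Finset.notMem_empty i)
      · rintro rfl
        simp
    rw [this]
    simp
  · have : conf m (∅ : Finset α) ∅ s = ∅ := by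
      ext x
      rw [mem_conf]
      simp [Ne.symm hs]
    rw [this]
    simp [hs]

theorem GF_singleton (m : ℕ) (κ : ℕ → ℤ) (i : α) :
    GF m κ ({i} : Finset α) ∅ = PowerSeries.mk κ := by
  ext s
  rw [coeff_GF, coeff_mk]
  have : conf m ({i} : Finset α) ∅ s = {Pi.single i s} := by
    ext x
    rw [mem_conf, Finset.mem_singleton]
    constructor
    · rintro ⟨⟨h1, h⟩, -⟩
      funext j
      by_cases hj : j = i
      · subst hj
        simpa using h1
      · rw [Pi.single_apply, if_neg hj]
        by_contra hne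
        exact hj (Finset.mem_singleton.1 (h j hne))
    · rintro rfl
      refine ⟨⟨by simp, ?_⟩, by simp⟩
      intro j hj
      rw [Finset.mem_singleton]
      by_contra hne
      apply hj
      rw [Pi.single_apply, if_neg hne]
  rw [this]
  simp

theorem coeff_GF_top (m : ℕ) (κ : ℕ → ℤ) (E : Finset α) (F : Finset (Finset α)) (s : ℕ) :
    coeff s (GF m κ E (insert E F)) =
      if s ≤ m * E.card then coeff s (GF m κ E F) else 0 := by
  rw [coeff_GF, coeff_GF]
  by_cases hs : s ≤ m * E.card
  · rw [if_pos hs]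
    have : conf m E (insert E F) s = conf m E F s := by
      ext x
      rw [mem_conf, mem_conf]
      constructor
      · rintro ⟨h1, h2⟩
        exact ⟨h1, fun D hD => h2 D (Finset.mem_insert_of_mem hD)⟩
      · rintro ⟨h1, h2⟩
        refine ⟨h1, fun D hD => ?_⟩
        rcases Finset.mem_insert.1 hD with rfl | hD
        · rw [h1.1]; exact hs
        · exact h2 D hD
    rw [this]
  · rw [if_neg hs]
    have : conf m E (insert E F) s = ∅ := by
      ext x
      rw [mem_conf]
      constructor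
      · rintro ⟨h1, h2⟩
        exfalso
        apply hs
        rw [← h1.1]
        exact h2 E (Finset.mem_insert_self _ _)
      · simp
    rw [this]
    simp

/-! ### The substitution -/

/-- the inverse of `1 + X` -/
noncomputable def vv : ℤ⟦X⟧ := PowerSeries.mk fun n => (-1) ^ n

theorem vv_mul : vv * (1 + X) = 1 := by
  ext n
  rw [mul_add, mul_one, map_add, vv, coeff_one]
  rcases n with _ | n
  · simp
  · rw [coeff_succ_mul_X, coeff_mk, coeff_mk]
    simp [pow_succ]

theorem hsub : HasSubst (X * vv : ℤ⟦X⟧) := by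
  apply HasSubst.of_constantCoeff_zero'
  simp

/-- the substitution `X ↦ X / (1 + X)` -/
noncomputable def psi : ℤ⟦X⟧ →ₐ[ℤ] ℤ⟦X⟧ := substAlgHom hsub

theorem psi_X : psi X = X * vv := substAlgHom_X hsub

theorem psi_one_div : psi (PowerSeries.mk fun _ => 1) = 1 + X := by
  have h1 : (PowerSeries.mk fun _ => (1 : ℤ)) * (1 - X) = 1 := PowerSeries.mk_one_mul_one_sub_eq_one ℤ
  have h2 := congrArg psi h1
  rw [map_mul, map_sub, map_one, psi_X] at h2
  have h3 : (1 - X * vv) * (1 + X) = (1 : ℤ⟦X⟧) := by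
    have := vv_mul
    linear_combination (-X) * this
  calc psi (PowerSeries.mk fun _ => 1) =
      psi (PowerSeries.mk fun _ => 1) * ((1 - X * vv) * (1 + X)) := by rw [h3, mul_one]
    _ = (psi (PowerSeries.mk fun _ => 1) * (1 - X * vv)) * (1 + X) := by ring
    _ = 1 + X := by rw [h2, one_mul]

theorem coeff_u_pow (K b : ℕ) (h : K < b) : coeff b ((1 + X : ℤ⟦X⟧) ^ K) = 0 := by
  have : ((1 + X : ℤ⟦X⟧) ^ K) = (((1 + Polynomial.X : Polynomial ℤ) ^ K : Polynomial ℤ) : ℤ⟦X⟧) := by
    simp
  rw [this, Polynomial.coeff_coe, Polynomial.coeff_one_add_X_pow, Nat.choose_eq_zero_of_lt h]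
  rfl

theorem coeff_u_pow_self (K : ℕ) : coeff K ((1 + X : ℤ⟦X⟧) ^ K) = 1 := by
  have : ((1 + X : ℤ⟦X⟧) ^ K) = (((1 + Polynomial.X : Polynomial ℤ) ^ K : Polynomial ℤ) : ℤ⟦X⟧) := by
    simp
  rw [this, Polynomial.coeff_coe, Polynomial.coeff_one_add_X_pow, Nat.choose_self]
  rfl

theorem vv_pow_mul (s K : ℕ) (h : s ≤ K) : vv ^ s * (1 + X) ^ K = (1 + X : ℤ⟦X⟧) ^ (K - s) := by
  have : (1 + X : ℤ⟦X⟧) ^ K = (1 + X) ^ s * (1 + X) ^ (K - s) := by
    rw [← pow_add]; congr 1; omega
  rw [this, ← mul_assoc, ← mul_pow, vv_mul, one_pow, one_mul]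

/-- the transform -/
noncomputable def Th (K : ℕ) (N : ℤ⟦X⟧) : ℤ⟦X⟧ := (1 + X) ^ K * psi N

theorem Th_mul (K L : ℕ) (N N' : ℤ⟦X⟧) : Th (K + L) (N * N') = Th K N * Th L N' := by
  rw [Th, Th, Th, map_mul, pow_add]; ring

theorem Th_poly (K : ℕ) (p : Polynomial ℤ) (hp : p.natDegree < K + 1) :
    Th K (p : ℤ⟦X⟧) = ∑ s ∈ Finset.range (K + 1), C (p.coeff s) * (X ^ s * (1 + X) ^ (K - s)) := by
  have hpsi : psi (p : ℤ⟦X⟧) = ∑ s ∈ Finset.range (K + 1), C (p.coeff s) * (X * vv) ^ s := by
    have : (p : ℤ⟦X⟧) = ∑ s ∈ Finset.range (K + 1), C (p.coeff s) * X ^ s := by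
      conv_lhs => rw [Polynomial.as_sum_range' p (K + 1) hp]
      rw [← Polynomial.coeToPowerSeries.ringHom_apply, map_sum]
      apply Finset.sum_congr rfl
      intro s _
      rw [Polynomial.coeToPowerSeries.ringHom_apply, Polynomial.coe_monomial,
        PowerSeries.monomial_eq_mk, ← PowerSeries.monomial_eq_mk,
        PowerSeries.monomial_eq_C_mul_X_pow]
    rw [this, map_sum]
    apply Finset.sum_congr rfl
    intro s _
    rw [map_mul, map_pow, psi_X]
    congr 1
    exact psi.commutes (p.coeff s)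
  rw [Th, hpsi, Finset.mul_sum]
  apply Finset.sum_congr rfl
  intro s hs
  rw [Finset.mem_range] at hs
  rw [← vv_pow_mul s K (by omega), mul_pow]
  ring

theorem coeff_Th_poly_lt (K : ℕ) (p : Polynomial ℤ) (hp : p.natDegree < K + 1) (b : ℕ)
    (hb : K < b) : coeff b (Th K (p : ℤ⟦X⟧)) = 0 := by
  rw [Th_poly K p hp, map_sum]
  apply Finset.sum_eq_zero
  intro s hs
  rw [Finset.mem_range] at hs
  rw [coeff_C_mul, coeff_X_pow_mul', if_pos (by omega), coeff_u_pow _ _ (by omega), mul_zero]

theorem coeff_Th_poly_self (K : ℕ) (p : Polynomial ℤ) (hp : p.natDegree < K + 1) :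
    coeff K (Th K (p : ℤ⟦X⟧)) = ∑ s ∈ Finset.range (K + 1), p.coeff s := by
  rw [Th_poly K p hp, map_sum]
  apply Finset.sum_congr rfl
  intro s hs
  rw [Finset.mem_range] at hs
  rw [coeff_C_mul, coeff_X_pow_mul', if_pos (by omega), coeff_u_pow_self, mul_one]

theorem Th_trunc (K : ℕ) (N : ℤ⟦X⟧) :
    ((trunc (K + 1) (Th K N) : Polynomial ℤ) : ℤ⟦X⟧) =
      Th K ((trunc (K + 1) N : Polynomial ℤ) : ℤ⟦X⟧) := by
  have hdeg : (trunc (K + 1) N).natDegree < K + 1 := natDegree_trunc_lt N K
  obtain ⟨N', hN'⟩ : X ^ (K + 1) ∣ N - ((trunc (K + 1) N : Polynomial ℤ) : ℤ⟦X⟧) := by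
    rw [X_pow_dvd_iff]
    intro b hb
    rw [map_sub, Polynomial.coeff_coe, coeff_trunc, if_pos hb, sub_self]
  have hN : N = ((trunc (K + 1) N : Polynomial ℤ) : ℤ⟦X⟧) + X ^ (K + 1) * N' := by
    rw [← hN']; ring
  ext b
  rw [Polynomial.coeff_coe, coeff_trunc]
  by_cases hb : b < K + 1
  · rw [if_pos hb]
    conv_lhs => rw [hN]
    have : Th K (((trunc (K + 1) N : Polynomial ℤ) : ℤ⟦X⟧) + X ^ (K + 1) * N') =
        Th K ((trunc (K + 1) N : Polynomial ℤ) : ℤ⟦X⟧) +
          X ^ (K + 1) * (vv ^ (K + 1) * ((1 + X) ^ K * psi N')) := by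
      rw [Th, Th, map_add, map_mul, map_pow, psi_X]
      ring
    rw [this, map_add, coeff_X_pow_mul', if_neg (by omega), add_zero]
  · rw [if_neg hb, coeff_Th_poly_lt K _ hdeg b (by omega)]

theorem GF_top (m : ℕ) (κ : ℕ → ℤ) (E : Finset α) (F : Finset (Finset α)) :
    GF m κ E (insert E F) =
      ((trunc (m * E.card + 1) (GF m κ E F) : Polynomial ℤ) : ℤ⟦X⟧) := by
  ext s
  rw [coeff_GF_top, Polynomial.coeff_coe, coeff_trunc]
  by_cases h : s ≤ m * E.card
  · rw [if_pos h, if_pos (by omega)]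
  · rw [if_neg h, if_neg (by omega)]

theorem mk_choose (M : ℕ) :
    (PowerSeries.mk fun j => ((M.choose j : ℕ) : ℤ)) = (1 + X : ℤ⟦X⟧) ^ M := by
  have : ((1 + X : ℤ⟦X⟧) ^ M) = (((1 + Polynomial.X : Polynomial ℤ) ^ M : Polynomial ℤ) : ℤ⟦X⟧) := by
    simp
  ext j
  rw [coeff_mk, this, Polynomial.coeff_coe, Polynomial.coeff_one_add_X_pow]

/-- The main identity: for a laminar family the two generating functions are related by the
transform. -/
theorem main_identity (m : ℕ) : ∀ (k : ℕ) (E : Finset α) (F : Finset (Finset α)),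
    E.card + F.card = k → (∀ D ∈ F, D ⊆ E) → (∀ D ∈ F, D.Nonempty) →
    (∀ D ∈ F, ∀ D' ∈ F, D ⊆ D' ∨ D' ⊆ D ∨ Disjoint D D') →
    GF m (fun j => (((m + 1).choose j : ℕ) : ℤ)) E F = Th (m * E.card) (GF m (fun _ => 1) E F) := by
  intro k
  induction k using Nat.strong_induction_on with
  | _ k ih =>
    intro E F hk hsub hne hlam
    by_cases hE : E ∈ F
    · -- the top constraint
      have hF : F = insert E (F.erase E) := (Finset.insert_erase hE).symm
      have hc : (F.erase E).card < F.card := Finset.card_erase_lt_of_mem hE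
      have hi := ih (E.card + (F.erase E).card) (by omega) E (F.erase E) rfl
        (fun D hD => hsub D (Finset.mem_of_mem_erase hD))
        (fun D hD => hne D (Finset.mem_of_mem_erase hD))
        (fun D hD D' hD' => hlam D (Finset.mem_of_mem_erase hD) D' (Finset.mem_of_mem_erase hD'))
      rw [hF, GF_top, GF_top, hi, Th_trunc]
    · by_cases hF0 : F = ∅
      · subst hF0
        rcases E.eq_empty_or_nonempty with rfl | ⟨i, hi⟩
        · rw [GF_empty, GF_empty, Th]
          simp
        · have hE' : E = {i} ∪ E.erase i := by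
            rw [← Finset.insert_eq, Finset.insert_erase hi]
          have hd : Disjoint ({i} : Finset α) (E.erase i) := by
            rw [Finset.disjoint_singleton_left]
            exact Finset.notMem_erase i E
          have hcard : E.card = 1 + (E.erase i).card := by
            have := Finset.card_erase_add_one hi
            omega
          have hi' := ih ((E.erase i).card + (∅ : Finset (Finset α)).card)
            (by rw [← hk]; simp only [Finset.card_empty]; omega) (E.erase i) ∅ rfl
            (by simp) (by simp) (by simp)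
          have hu : (∅ : Finset (Finset α)) = ∅ ∪ ∅ := by simp
          have key : ∀ κ : ℕ → ℤ, GF m κ E ∅ = GF m κ {i} ∅ * GF m κ (E.erase i) ∅ := by
            intro κ
            conv_lhs => rw [hE', hu]
            exact GF_union m κ hd (by simp) (by simp)
          rw [key, key, hi', hcard, mul_add, Th_mul, GF_singleton, GF_singleton]
          congr 1
          rw [mk_choose, mul_one, Th, psi_one_div, pow_succ]
      · -- a maximal member
        obtain ⟨D, hD, hmax⟩ := Finset.exists_max_image F Finset.card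
          (Finset.nonempty_iff_ne_empty.2 hF0)
        have hDE : D ⊆ E := hsub D hD
        have hDne : D ≠ E := fun h => hE (h ▸ hD)
        have hDlt : D.card < E.card := Finset.card_lt_card (lt_of_le_of_ne hDE hDne)
        have hDpos : 0 < D.card := Finset.card_pos.2 (hne D hD)
        set F1 := F.filter (fun S => S ⊆ D) with hF1
        set F2 := F.filter (fun S => S ⊆ E \ D) with hF2
        have hFu : F = F1 ∪ F2 := by
          ext S
          rw [Finset.mem_union, hF1, hF2, Finset.mem_filter, Finset.mem_filter]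
          constructor
          · intro hS
            rcases hlam D hD S hS with h | h | h
            · left
              refine ⟨hS, ?_⟩
              have := Finset.eq_of_subset_of_card_le h (hmax S hS)
              rw [this]
            · exact Or.inl ⟨hS, h⟩
            · right
              refine ⟨hS, ?_⟩
              intro x hx
              rw [Finset.mem_sdiff]
              exact ⟨hsub S hS hx, fun hxD => (Finset.disjoint_left.1 h hxD) hx⟩
          · rintro (⟨h, -⟩ | ⟨h, -⟩) <;> exact h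
        have hEu : E = D ∪ (E \ D) := by
          rw [Finset.union_sdiff_of_subset hDE]
        have hd : Disjoint D (E \ D) := Finset.disjoint_sdiff
        have hcard : E.card = D.card + (E \ D).card := by
          rw [Finset.card_sdiff_of_subset hDE]; omega
        have hc1 : F1.card ≤ F.card := Finset.card_filter_le _ _
        have hc2 : F2.card ≤ F.card := Finset.card_filter_le _ _
        have i1 := ih (D.card + F1.card) (by omega) D F1 rfl
          (fun S hS => (Finset.mem_filter.1 hS).2)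
          (fun S hS => hne S (Finset.mem_filter.1 hS).1)
          (fun S hS S' hS' => hlam S (Finset.mem_filter.1 hS).1 S' (Finset.mem_filter.1 hS').1)
        have i2 := ih ((E \ D).card + F2.card) (by omega) (E \ D) F2 rfl
          (fun S hS => (Finset.mem_filter.1 hS).2)
          (fun S hS => hne S (Finset.mem_filter.1 hS).1)
          (fun S hS S' hS' => hlam S (Finset.mem_filter.1 hS).1 S' (Finset.mem_filter.1 hS').1)
        have key : ∀ κ : ℕ → ℤ, GF m κ E F = GF m κ D F1 * GF m κ (E \ D) F2 := by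
          intro κ
          conv_lhs => rw [hEu, hFu]
          exact GF_union m κ hd (fun S hS => (Finset.mem_filter.1 hS).2)
            (fun S hS => (Finset.mem_filter.1 hS).2)
        rw [key, key, i1, i2, hcard, mul_add, Th_mul]

/-- the identity at the root of a tree -/
theorem root_identity (m : ℕ) (E : Finset α) (F : Finset (Finset α)) (hE : E ∈ F)
    (hsub : ∀ D ∈ F, D ⊆ E) (hne : ∀ D ∈ F, D.Nonempty)
    (hlam : ∀ D ∈ F, ∀ D' ∈ F, D ⊆ D' ∨ D' ⊆ D ∨ Disjoint D D') :
    coeff (m * E.card) (GF m (fun j => (((m + 1).choose j : ℕ) : ℤ)) E F) =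
      ∑ s ∈ Finset.range (m * E.card + 1), coeff s (GF m (fun _ => 1) E F) := by
  rw [main_identity m _ E F rfl hsub hne hlam]
  have h1 : GF m (fun _ => 1) E F =
      ((trunc (m * E.card + 1) (GF m (fun _ => 1) E F) : Polynomial ℤ) : ℤ⟦X⟧) := by
    have hF : F = insert E (F.erase E) := (Finset.insert_erase hE).symm
    ext s
    rw [Polynomial.coeff_coe, coeff_trunc]
    split_ifs with h
    · rfl
    · rw [hF, coeff_GF_top, if_neg (by omega)]
  conv_lhs => rw [h1]
  rw [coeff_Th_poly_self _ _ (natDegree_trunc_lt _ _)]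
  apply Finset.sum_congr rfl
  intro s hs
  rw [coeff_trunc, if_pos (Finset.mem_range.1 hs)]

end Pool.Agent.V1154.ArborGF
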