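import Mathlib

/-!
# Counting strictly increasing labelled sequences
-/

set_option autoImplicit false

namespace Pool.Agent.V1154.ArborWords

open Finset

/-- strictly monotone maps correspond to subsets -/
theorem card_strictMono (n : ℕ) (Λ : Type) [Fintype Λ] [LinearOrder Λ] (P : Finset Λ → Prop) :
    Nat.card {g : Fin n → Λ // StrictMono g ∧ P (Finset.univ.image g)} =
      Nat.card {A : Finset Λ // A.card = n ∧ P A} := by
  classical
  apply Nat.card_congr
  refine Equiv.ofBijective (fun g => ⟨Finset.univ.image g.1, ?_, g.2.2⟩) ⟨?_, ?_⟩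
  · rw [Finset.card_image_of_injective _ g.2.1.injective, Finset.card_univ, Fintype.card_fin]
  · rintro ⟨g, hg, hP⟩ ⟨g', hg', hP'⟩ h
    simp only [Subtype.mk.injEq] at h
    apply Subtype.ext
    have h1 : (Finset.univ.image g).card = n := by
      rw [Finset.card_image_of_injective _ hg.injective, Finset.card_univ, Fintype.card_fin]
    have e1 := Finset.orderEmbOfFin_unique h1
      (fun x => Finset.mem_image_of_mem g (Finset.mem_univ x)) hg
    have e2 := Finset.orderEmbOfFin_unique h1
      (fun x => by rw [h]; exact Finset.mem_image_of_mem g' (Finset.mem_univ x)) hg'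
    exact e1.trans e2.symm
  · rintro ⟨A, hA, hP⟩
    have him : Finset.univ.image (A.orderEmbOfFin hA) = A := by
      apply Finset.coe_injective
      rw [Finset.coe_image, Finset.coe_univ, Set.image_univ, Finset.range_orderEmbOfFin]
    refine ⟨⟨A.orderEmbOfFin hA, (A.orderEmbOfFin hA).strictMono, ?_⟩, ?_⟩
    · rw [him]; exact hP
    · apply Subtype.ext
      exact him

theorem card_strictMono_fin (n K : ℕ) :
    Nat.card {g : Fin n → Fin K // StrictMono g} = K.choose n := by
  classical
  have h := card_strictMono n (Fin K) (fun _ => True)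
  have h1 : Nat.card {g : Fin n → Fin K // StrictMono g ∧ True} =
      Nat.card {g : Fin n → Fin K // StrictMono g} :=
    Nat.card_congr (Equiv.subtypeEquivRight fun g => by simp)
  have h2 : Nat.card {A : Finset (Fin K) // A.card = n ∧ True} =
      (Finset.powersetCard n (Finset.univ : Finset (Fin K))).card := by
    rw [Nat.card_eq_fintype_card, Fintype.card_subtype]
    congr 1
    ext A
    simp [Finset.mem_powersetCard]
  rw [← h1, h, h2, Finset.card_powersetCard, Finset.card_univ, Fintype.card_fin]

/-- number of descents before a position -/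
def dd {k : ℕ} (P : Fin k → Prop) [DecidablePred P] (j : Fin (k + 1)) : ℕ :=
  (Finset.univ.filter (fun i : Fin k => i.castSucc < j ∧ P i)).card

theorem dd_succ {k : ℕ} (P : Fin k → Prop) [DecidablePred P] (i : Fin k) :
    dd P i.succ = dd P i.castSucc + if P i then 1 else 0 := by
  classical
  have h : (Finset.univ.filter (fun i' : Fin k => i'.castSucc < i.succ ∧ P i')) =
      (Finset.univ.filter (fun i' : Fin k => i'.castSucc < i.castSucc ∧ P i')) ∪
        (if P i then {i} else ∅) := by
    ext i'
    simp only [Finset.mem_union, Finset.mem_filter, Finset.mem_univ, true_and]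
    have h1 : i'.castSucc < i.succ ↔ i' ≤ i := by
      rw [Fin.lt_def, Fin.le_def]; simp
    have h2 : i'.castSucc < i.castSucc ↔ i' < i := by
      rw [Fin.lt_def, Fin.lt_def]; simp
    rw [h1, h2]
    by_cases hi : P i
    · rw [if_pos hi, Finset.mem_singleton]
      constructor
      · rintro ⟨h3, h4⟩
        rcases h3.lt_or_eq with h5 | h5
        · exact Or.inl ⟨h5, h4⟩
        · exact Or.inr h5
      · rintro (⟨h3, h4⟩ | h3)
        · exact ⟨h3.le, h4⟩
        · rw [h3]; exact ⟨le_rfl, hi⟩
    · rw [if_neg hi]
      constructor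
      · rintro ⟨h3, h4⟩
        rcases h3.lt_or_eq with h5 | h5
        · exact Or.inl ⟨h5, h4⟩
        · rw [h5] at h4; exact absurd h4 hi
      · rintro (⟨h3, h4⟩ | h3)
        · exact ⟨h3.le, h4⟩
        · simp at h3
  unfold dd
  rw [h, Finset.card_union_of_disjoint]
  · congr 1
    split_ifs <;> simp
  · split_ifs
    · rw [Finset.disjoint_singleton_right, Finset.mem_filter]
      rintro ⟨-, h3, -⟩
      exact lt_irrefl _ h3
    · exact Finset.disjoint_empty_right _

theorem dd_le_des {k : ℕ} (P : Fin k → Prop) [DecidablePred P] (j : Fin (k + 1)) :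
    dd P j ≤ (Finset.univ.filter P).card := by
  apply Finset.card_le_card
  intro i hi
  rw [Finset.mem_filter] at hi ⊢
  exact ⟨hi.1, hi.2.2⟩

theorem dd_le {k : ℕ} (P : Fin k → Prop) [DecidablePred P] (j : Fin (k + 1)) :
    dd P j ≤ j := by
  have h1 : dd P j ≤ (Finset.univ.filter (fun i : Fin k => (i : ℕ) < j)).card := by
    apply Finset.card_le_card
    intro i hi
    rw [Finset.mem_filter] at hi ⊢
    exact ⟨hi.1, hi.2.1⟩
  have h2 : (Finset.univ.filter (fun i : Fin k => (i : ℕ) < j)).card ≤ (Finset.range j).card := by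
    apply Finset.card_le_card_of_injOn (fun i : Fin k => (i : ℕ))
    · intro i hi
      simpa using hi
    · intro a _ b _ h
      exact Fin.ext h
  rw [Finset.card_range] at h2
  omega

theorem des_le_dd {k : ℕ} (P : Fin k → Prop) [DecidablePred P] (j : Fin (k + 1)) :
    (Finset.univ.filter P).card ≤ dd P j + (k - j) := by
  classical
  have h1 : Finset.univ.filter P ⊆
      (Finset.univ.filter (fun i : Fin k => i.castSucc < j ∧ P i)) ∪
        (Finset.univ.filter (fun i : Fin k => (j : ℕ) ≤ i)) := by
    intro i hi
    simp only [Finset.mem_union, Finset.mem_filter, Finset.mem_univ, true_and] at hi ⊢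
    by_cases h : (j : ℕ) ≤ i
    · exact Or.inr h
    · left
      refine ⟨?_, hi⟩
      rw [Fin.lt_def]
      simp only [Fin.val_castSucc]
      omega
  have h2 : (Finset.univ.filter (fun i : Fin k => (j : ℕ) ≤ i)).card ≤ (Finset.Ico (j : ℕ) k).card := by
    apply Finset.card_le_card_of_injOn (fun i : Fin k => (i : ℕ))
    · intro i hi
      simp only [Finset.coe_filter, Finset.mem_univ, true_and, Set.mem_ofPred_eq] at hi
      simp [hi]
    · intro a _ b _ h
      exact Fin.ext h
  rw [Nat.card_Ico] at h2
  have h3 := Finset.card_le_card h1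
  have h4 := Finset.card_union_le (Finset.univ.filter (fun i : Fin k => i.castSucc < j ∧ P i))
    (Finset.univ.filter (fun i : Fin k => (j : ℕ) ≤ i))
  unfold dd
  omega

theorem strict_growth {k : ℕ} {h : Fin (k + 1) → ℕ} (hh : StrictMono h) :
    ∀ (t : ℕ) (i : Fin (k + 1)) (ht : (i : ℕ) + t < k + 1), h i + t ≤ h ⟨i + t, ht⟩ := by
  intro t
  induction t with
  | zero => intro i ht; simp
  | succ t ih =>
    intro i ht
    have h1 := ih i (by omega)
    have h2 : h ⟨i + t, by omega⟩ < h ⟨i + (t + 1), ht⟩ := hh (by rw [Fin.lt_def]; simp)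
    omega

theorem strict_growth0 {k : ℕ} {h : Fin (k + 1) → ℕ} (hh : StrictMono h) (j : Fin (k + 1)) :
    (j : ℕ) ≤ h j := by
  have h1 := strict_growth hh j 0 (by have := j.2; simp; omega)
  have h2 : (⟨((0 : Fin (k + 1)) : ℕ) + (j : ℕ), by have := j.2; simp; omega⟩ :
      Fin (k + 1)) = j := by
    apply Fin.ext; simp
  rw [h2] at h1
  omega

/-- The number of sequences with prescribed weak and strict ascents. -/
theorem card_chain {k : ℕ} (M : ℕ) (P : Fin k → Prop) [DecidablePred P] :
    Nat.card {f : Fin (k + 1) → Fin M // ∀ i : Fin k,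
      (P i ∧ f i.castSucc ≤ f i.succ) ∨ f i.castSucc < f i.succ} =
      (M + (Finset.univ.filter P).card).choose (k + 1) := by
  classical
  rw [← card_strictMono_fin (k + 1) (M + (Finset.univ.filter P).card)]
  apply Nat.card_congr
  refine
    { toFun := fun f => ⟨fun j => ⟨f.1 j + dd P j, ?_⟩, ?_⟩
      invFun := fun g => ⟨fun j => ⟨g.1 j - dd P j, ?_⟩, ?_⟩
      left_inv := ?_
      right_inv := ?_ }
  · have := dd_le_des P j
    have := (f.1 j).2
    omega
  · rw [Fin.strictMono_iff_lt_succ]
    intro i
    rw [Fin.lt_def]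
    simp only
    rw [dd_succ]
    rcases f.2 i with ⟨h1, h2⟩ | h2
    · rw [if_pos h1]
      rw [Fin.le_def] at h2
      omega
    · rw [Fin.lt_def] at h2
      omega
  · have hg : StrictMono (fun j => (g.1 j : ℕ)) := fun a b hab => g.2 hab
    have h1 := strict_growth hg (k - j) j (by omega)
    have h2 := (g.1 ⟨j + (k - j), by omega⟩).2
    have h3 := des_le_dd P j
    have h4 := dd_le_des P j
    have h5 := strict_growth0 hg j
    have h7 := dd_le P j
    omega
  · intro i
    have hg : StrictMono (fun j => (g.1 j : ℕ)) := fun a b hab => g.2 hab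
    have h1 := g.2 (Fin.castSucc_lt_succ (i := i))
    rw [Fin.lt_def] at h1
    have h5 := strict_growth0 hg i.castSucc
    have h7 := dd_le P i.castSucc
    have h8 := dd_succ P i
    rw [Fin.le_def, Fin.lt_def]
    simp only
    by_cases hP : P i
    · rw [if_pos hP] at h8
      left
      refine ⟨hP, ?_⟩
      omega
    · rw [if_neg hP] at h8
      right
      omega
  · rintro ⟨f, hf⟩
    apply Subtype.ext
    funext j
    apply Fin.ext
    simp
  · rintro ⟨g, hg⟩
    apply Subtype.ext
    funext j
    apply Fin.ext
    simp only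
    have hg' : StrictMono (fun j => (g j : ℕ)) := fun a b hab => hg hab
    have h5 := strict_growth0 hg' j
    have h7 := dd_le P j
    omega

end Pool.Agent.V1154.ArborWords
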