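import Mathlib

/-! Abstract braid moves on words `ℕ → A` for a symmetric triangle-free relation. -/

namespace Pool.Agent.V1154.BraidAbs

variable {A : Type*}

/-- the move at left index `p` is available -/
def avail (R : A → A → Prop) (p : ℕ) (f : ℕ → A) : Prop := R (f p) (f (p+1)) ∧ f (p+2) = f p

/-- the move at left index `p` -/
def mv (p : ℕ) (f : ℕ → A) : ℕ → A := fun i =>
  if i = p then f (p+1) else if i = p+1 then f p else if i = p+2 then f (p+1) else f i

def Valid (R : A → A → Prop) : (ℕ → A) → List ℕ → Prop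
  | _, [] => True
  | f, c :: cs => avail R c f ∧ Valid R (mv c f) cs

def app : (ℕ → A) → List ℕ → (ℕ → A)
  | f, [] => f
  | f, c :: cs => app (mv c f) cs

@[simp] lemma mv_0 (p : ℕ) (f : ℕ → A) : mv p f p = f (p+1) := by simp [mv]
@[simp] lemma mv_1 (p : ℕ) (f : ℕ → A) : mv p f (p+1) = f p := by simp [mv]
@[simp] lemma mv_2 (p : ℕ) (f : ℕ → A) : mv p f (p+2) = f (p+1) := by simp [mv]

lemma mv_of_ne {p i : ℕ} (f : ℕ → A) (h0 : i ≠ p) (h1 : i ≠ p+1) (h2 : i ≠ p+2) :
    mv p f i = f i := by simp [mv, h0, h1, h2]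

lemma mv_mv {R : A → A → Prop} {p : ℕ} {f : ℕ → A} (h : avail R p f) : mv p (mv p f) = f := by
  funext i
  by_cases h0 : i = p
  · subst h0; simp
  by_cases h1 : i = p+1
  · subst h1; simp
  by_cases h2 : i = p+2
  · subst h2; simp [h.2]
  rw [mv_of_ne _ h0 h1 h2, mv_of_ne _ h0 h1 h2]

lemma avail_mv {R : A → A → Prop} (sym : ∀ a b, R a b → R b a) {p : ℕ} {f : ℕ → A}
    (h : avail R p f) : avail R p (mv p f) := by
  refine ⟨?_, ?_⟩
  · simp only [mv_0, mv_1]; exact sym _ _ h.1
  · simp only [mv_0, mv_2]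

lemma Valid_append {R : A → A → Prop} : ∀ (cs ds : List ℕ) (f : ℕ → A),
    Valid R f (cs ++ ds) ↔ Valid R f cs ∧ Valid R (app f cs) ds
  | [], ds, f => by simp [Valid, app]
  | c :: cs, ds, f => by
    simp only [List.cons_append, Valid, app, Valid_append cs ds, and_assoc]

lemma app_append : ∀ (cs ds : List ℕ) (f : ℕ → A), app f (cs ++ ds) = app (app f cs) ds
  | [], ds, f => by simp [app]
  | c :: cs, ds, f => by simp only [List.cons_append, app, app_append cs ds]

lemma unchanged {i : ℕ} : ∀ (cs : List ℕ) (f : ℕ → A),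
    (∀ c ∈ cs, i ≠ c ∧ i ≠ c+1 ∧ i ≠ c+2) → app f cs i = f i
  | [], f, _ => rfl
  | c :: cs, f, h => by
    have h0 := h c (by simp)
    rw [app, unchanged cs _ (fun d hd => h d (by simp [hd]))]
    exact mv_of_ne _ h0.1 h0.2.1 h0.2.2

lemma mix {R : A → A → Prop} (T : Set ℕ) : ∀ (cs : List ℕ) (f k : ℕ → A), Valid R f cs →
    (∀ c ∈ cs, (c ∈ T ∧ c+1 ∈ T ∧ c+2 ∈ T) ∨ (c ∉ T ∧ c+1 ∉ T ∧ c+2 ∉ T)) →
    (∀ i ∈ T, k i = f i) →
    ∃ cs', Valid R k cs' ∧ (∀ i ∈ T, app k cs' i = app f cs i) ∧ (∀ i, i ∉ T → app k cs' i = k i)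
  | [], f, k, _, _, hk => ⟨[], trivial, hk, fun _ _ => rfl⟩
  | c :: cs, f, k, hv, hT, hk => by
    rcases hT c (by simp) with hc | hc
    · have hav : avail R c k := by
        refine ⟨?_, ?_⟩
        · rw [hk _ hc.1, hk _ hc.2.1]; exact hv.1.1
        · rw [hk _ hc.1, hk _ hc.2.2]; exact hv.1.2
      obtain ⟨cs', h1, h2, h3⟩ := mix T cs (mv c f) (mv c k) hv.2
        (fun d hd => hT d (by simp [hd])) (by
          intro i hi
          by_cases h0 : i = c
          · subst h0; simp [hk _ hc.2.1]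
          by_cases h1 : i = c+1
          · subst h1; simp [hk _ hc.1]
          by_cases h2 : i = c+2
          · subst h2; simp [hk _ hc.2.1]
          rw [mv_of_ne _ h0 h1 h2, mv_of_ne _ h0 h1 h2, hk i hi])
      refine ⟨c :: cs', ⟨hav, h1⟩, h2, fun i hi => ?_⟩
      rw [app, h3 i hi]
      apply mv_of_ne
      · rintro rfl; exact hi hc.1
      · rintro rfl; exact hi hc.2.1
      · rintro rfl; exact hi hc.2.2
    · obtain ⟨cs', h1, h2, h3⟩ := mix T cs (mv c f) k hv.2
        (fun d hd => hT d (by simp [hd])) (by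
          intro i hi
          rw [mv_of_ne, hk i hi]
          · rintro rfl; exact hc.1 hi
          · rintro rfl; exact hc.2.1 hi
          · rintro rfl; exact hc.2.2 hi)
      exact ⟨cs', h1, h2, h3⟩

/-- a braid class of words -/
structure Sys (R : A → A → Prop) (C : Set (ℕ → A)) : Prop where
  sym : ∀ a b, R a b → R b a
  tri : ∀ a b c, R a b → R b c → R a c → False
  closed : ∀ g ∈ C, ∀ c, avail R c g → mv c g ∈ C
  conn : ∀ g ∈ C, ∀ h ∈ C, ∃ cs, Valid R g cs ∧ app g cs = h
  ns : ∀ g ∈ C, ∀ p, avail R p g → avail R (p+1) g → False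

variable {R : A → A → Prop} {C : Set (ℕ → A)}

lemma Sys.irr (H : Sys R C) {a b : A} (h : R a b) : a ≠ b := by
  rintro rfl
  exact H.tri a a a h h h

lemma Sys.app_mem (H : Sys R C) : ∀ (cs : List ℕ) (f : ℕ → A), f ∈ C → Valid R f cs → app f cs ∈ C
  | [], f, hf, _ => hf
  | c :: cs, f, hf, hv => H.app_mem cs _ (H.closed f hf c hv.1) hv.2

lemma Sys.adj (H : Sys R C) : ∀ (n : ℕ) (cs : List ℕ) (f : ℕ → A), cs.length = n → f ∈ C →
    Valid R f cs → ∀ p q, (q = p+1 ∨ p = q+1) → avail R p f → avail R q (app f cs) → False := by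
  intro n
  induction n using Nat.strong_induction_on with
  | _ n ih =>
  intro cs f hn hf hv p q hpq hp hq
  have hc : ∀ c ∈ cs, c ≠ p ∧ c ≠ q ∧ c ≠ p+1 ∧ p ≠ c+1 ∧ c ≠ q+1 ∧ q ≠ c+1 := by
    intro c hc
    obtain ⟨cs1, cs2, rfl⟩ := List.append_of_mem hc
    rw [Valid_append] at hv
    have hlen1 : cs1.length < n := by
      rw [← hn]; simp
    have hlen2 : cs2.length < n := by
      rw [← hn]; simp; omega
    have hh : app f cs1 ∈ C := H.app_mem cs1 f hf hv.1
    have hav : avail R c (app f cs1) := hv.2.1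
    have hav' : avail R c (mv c (app f cs1)) := avail_mv H.sym hav
    have hh' : mv c (app f cs1) ∈ C := H.closed _ hh c hav
    have hg : app f (cs1 ++ c :: cs2) = app (mv c (app f cs1)) cs2 := by
      rw [app_append, app]
    rw [hg] at hq
    have e1 : ∀ r, (c = r+1 ∨ r = c+1) → r = p → False := by
      intro r hr hrp
      subst hrp
      exact ih _ hlen1 cs1 f rfl hf hv.1 r c hr hp hav
    have e2 : (q = c+1 ∨ c = q+1) → False := by
      intro hr
      exact ih _ hlen2 cs2 _ rfl hh' hv.2.2 c q hr hav' hq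
    refine ⟨?_, ?_, ?_, ?_, ?_, ?_⟩
    · rintro rfl
      exact ih _ hlen2 cs2 _ rfl hh' hv.2.2 c q hpq hav' hq
    · rintro rfl
      exact ih _ hlen1 cs1 f rfl hf hv.1 p c hpq hp hav
    · intro h; exact e1 p (Or.inl h) rfl
    · intro h; exact e1 p (Or.inr h) rfl
    · intro h; exact e2 (Or.inr h)
    · intro h; exact e2 (Or.inl h)
  rcases hpq with rfl | rfl
  · -- q = p+1
    obtain ⟨ds, h1, h2, h3⟩ := mix {i | p + 3 ≤ i} cs f f hv (by
      intro c hcm
      have := hc c hcm
      simp only [Set.mem_ofPred_eq]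
      omega) (fun _ _ => rfl)
    have hk := H.app_mem ds f hf h1
    have u1 : app f cs (p+1) = f (p+1) := unchanged cs f (fun c hcm => by
      have := hc c hcm; omega)
    have u2 : app f cs (p+2) = f (p+2) := unchanged cs f (fun c hcm => by
      have := hc c hcm; omega)
    have k0 : app f ds p = f p := h3 _ (by simp only [Set.mem_ofPred_eq]; omega)
    have k1 : app f ds (p+1) = f (p+1) := h3 _ (by simp only [Set.mem_ofPred_eq]; omega)
    have k2 : app f ds (p+2) = f (p+2) := h3 _ (by simp only [Set.mem_ofPred_eq]; omega)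
    have k3 : app f ds (p+3) = app f cs (p+3) := h2 _ (by simp only [Set.mem_ofPred_eq]; omega)
    refine H.ns _ hk p ⟨?_, ?_⟩ ⟨?_, ?_⟩
    · rw [k0, k1]; exact hp.1
    · rw [k0, k2]; exact hp.2
    · rw [show p+1+1 = p+2 from rfl, k1, k2, ← u1, ← u2]; exact hq.1
    · rw [show p+1+2 = p+3 from rfl, k1, k3, ← u1]; exact hq.2
  · -- p = q+1
    obtain ⟨ds, h1, h2, h3⟩ := mix {i | i ≤ q} cs f f hv (by
      intro c hcm
      have := hc c hcm
      simp only [Set.mem_ofPred_eq]
      omega) (fun _ _ => rfl)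
    have hk := H.app_mem ds f hf h1
    have u1 : app f cs (q+1) = f (q+1) := unchanged cs f (fun c hcm => by
      have := hc c hcm; omega)
    have u2 : app f cs (q+2) = f (q+2) := unchanged cs f (fun c hcm => by
      have := hc c hcm; omega)
    have k0 : app f ds q = app f cs q := h2 _ (by simp only [Set.mem_ofPred_eq]; omega)
    have k1 : app f ds (q+1) = f (q+1) := h3 _ (by simp only [Set.mem_ofPred_eq]; omega)
    have k2 : app f ds (q+2) = f (q+2) := h3 _ (by simp only [Set.mem_ofPred_eq]; omega)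
    have k3 : app f ds (q+3) = f (q+3) := h3 _ (by simp only [Set.mem_ofPred_eq]; omega)
    refine H.ns _ hk q ⟨?_, ?_⟩ ⟨?_, ?_⟩
    · rw [k0, k1, ← u1]; exact hq.1
    · rw [k0, k2, ← u2]; exact hq.2
    · rw [show q+1+1 = q+2 from rfl, k1, k2]; exact hp.1
    · rw [show q+1+2 = q+3 from rfl, k1, k3]; exact hp.2

/-- centres at distance one never both occur in a class -/
lemma Sys.adj' (H : Sys R C) {f g : ℕ → A} (hf : f ∈ C) (hg : g ∈ C) {p : ℕ}
    (hp : avail R p f) (hq : avail R (p+1) g) : False := by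
  obtain ⟨cs, hv, rfl⟩ := H.conn f hf g hg
  exact H.adj _ cs f rfl hf hv p (p+1) (Or.inl rfl) hp hq

/-- centres of the class -/
def P (R : A → A → Prop) (C : Set (ℕ → A)) : Set ℕ := {p | ∃ g ∈ C, avail R p g}

lemma Sys.notP (H : Sys R C) {p : ℕ} (h : p ∈ P R C) : p+1 ∉ P R C := by
  obtain ⟨f, hf, hp⟩ := h
  rintro ⟨g, hg, hq⟩
  exact H.adj' hf hg hp hq

lemma Sys.mem_P_of_mem (H : Sys R C) {cs : List ℕ} {f : ℕ → A} (hf : f ∈ C) (hv : Valid R f cs)
    {c : ℕ} (hc : c ∈ cs) : c ∈ P R C := by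
  obtain ⟨cs1, cs2, rfl⟩ := List.append_of_mem hc
  rw [Valid_append] at hv
  exact ⟨_, H.app_mem cs1 f hf hv.1, hv.2.1⟩

/-- splitting at the last occurrence -/
lemma split_last {c : ℕ} : ∀ (cs : List ℕ), c ∈ cs → ∃ l r, cs = l ++ c :: r ∧ c ∉ r
  | [], h => by simp at h
  | d :: cs, h => by
    by_cases hcs : c ∈ cs
    · obtain ⟨l, r, rfl, hr⟩ := split_last cs hcs
      exact ⟨d :: l, r, rfl, hr⟩
    · have : c = d := by
        rcases List.mem_cons.mp h with h | h
        · exact h
        · exact absurd h hcs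
      subst this
      exact ⟨[], cs, rfl, hcs⟩

lemma split_first {c : ℕ} : ∀ (cs : List ℕ), c ∈ cs → ∃ l r, cs = l ++ c :: r ∧ c ∉ l
  | [], h => by simp at h
  | d :: cs, h => by
    by_cases hd : c = d
    · subst hd
      exact ⟨[], cs, rfl, by simp⟩
    · have : c ∈ cs := by
        rcases List.mem_cons.mp h with h | h
        · exact absurd h hd
        · exact h
      obtain ⟨l, r, rfl, hl⟩ := split_first cs this
      exact ⟨d :: l, r, rfl, by simp [hd, hl]⟩

/-- same unordered pair at `p` -/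
def SamePair (p : ℕ) (f g : ℕ → A) : Prop :=
  (g p = f p ∧ g (p+1) = f (p+1)) ∨ (g p = f (p+1) ∧ g (p+1) = f p)

lemma SamePair.trans {p : ℕ} {f g h : ℕ → A} (h1 : SamePair p f g) (h2 : SamePair p g h) :
    SamePair p f h := by
  unfold SamePair at *
  rcases h1 with h1 | h1 <;> rcases h2 with h2 | h2
  · left; exact ⟨h2.1.trans h1.1, h2.2.trans h1.2⟩
  · right; exact ⟨h2.1.trans h1.2, h2.2.trans h1.1⟩
  · right; exact ⟨h2.1.trans h1.1, h2.2.trans h1.2⟩
  · left; exact ⟨h2.1.trans h1.2, h2.2.trans h1.1⟩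

lemma SamePair.symm {p : ℕ} {f g : ℕ → A} (h : SamePair p f g) : SamePair p g f := by
  unfold SamePair at *
  rcases h with h | h
  · left; exact ⟨h.1.symm, h.2.symm⟩
  · right; exact ⟨h.2.symm, h.1.symm⟩

lemma samePair_mv (p : ℕ) (f : ℕ → A) : SamePair p f (mv p f) := by
  right; simp

lemma Sys.pair (H : Sys R C) : ∀ (n : ℕ) (cs : List ℕ) (f : ℕ → A), cs.length = n → f ∈ C →
    Valid R f cs → ∀ p, avail R p f → avail R p (app f cs) → SamePair p f (app f cs) := by
  intro n
  induction n using Nat.strong_induction_on with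
  | _ n ih =>
  intro cs f hn hf hv p hp hq
  by_cases hpc : p ∈ cs
  · obtain ⟨cs1, cs2, rfl⟩ := List.append_of_mem hpc
    rw [Valid_append] at hv
    have hlen1 : cs1.length < n := by rw [← hn]; simp
    have hlen2 : cs2.length < n := by rw [← hn]; simp; omega
    have hh : app f cs1 ∈ C := H.app_mem cs1 f hf hv.1
    have hav : avail R p (app f cs1) := hv.2.1
    have hav' : avail R p (mv p (app f cs1)) := avail_mv H.sym hav
    have hh' : mv p (app f cs1) ∈ C := H.closed _ hh p hav
    have hg : app f (cs1 ++ p :: cs2) = app (mv p (app f cs1)) cs2 := by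
      rw [app_append, app]
    rw [hg] at hq ⊢
    exact (ih _ hlen1 cs1 f rfl hf hv.1 p hp hav).trans
      ((samePair_mv p _).trans (ih _ hlen2 cs2 _ rfl hh' hv.2.2 p hav' hq))
  · have hpP : p ∈ P R C := ⟨f, hf, hp⟩
    have hc : ∀ c ∈ cs, c ≠ p ∧ c ≠ p+1 ∧ p ≠ c+1 := by
      intro c hcm
      have hcP := H.mem_P_of_mem hf hv hcm
      refine ⟨?_, ?_, ?_⟩
      · rintro rfl; exact hpc hcm
      · rintro rfl; exact H.notP hpP hcP
      · rintro rfl; exact H.notP hcP hpP
    have u1 : app f cs (p+1) = f (p+1) := unchanged cs f (fun c hcm => by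
      have := hc c hcm; omega)
    left
    refine ⟨?_, u1⟩
    -- position p
    by_contra hne
    have hex : ∃ c ∈ cs, p = c + 2 := by
      by_contra hno
      push Not at hno
      exact hne (unchanged cs f (fun c hcm => by
        have := hc c hcm; have := hno c hcm; omega))
    obtain ⟨c, hcm, hpc2⟩ := hex
    subst hpc2
    obtain ⟨cs1, cs2, rfl, hcs1⟩ := split_first cs hcm
    rw [Valid_append] at hv
    have hh : app f cs1 ∈ C := H.app_mem cs1 f hf hv.1
    have hav : avail R c (app f cs1) := hv.2.1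
    have hav' : avail R c (mv c (app f cs1)) := avail_mv H.sym hav
    have hh' : mv c (app f cs1) ∈ C := H.closed _ hh c hav
    have v1 : app f cs1 (c+2) = f (c+2) := unchanged cs1 f (fun d hd => by
      have := hc d (by simp [hd])
      have : d ≠ c := by rintro rfl; exact hcs1 hd
      omega)
    set h := app f cs1 with hhdef
    have hg : app f (cs1 ++ c :: cs2) = app (mv c h) cs2 := by
      rw [app_append, app]
    rw [hg] at hne hq u1
    -- g (c+2) is in the pair of c at h
    have hx : app (mv c h) cs2 (c+2) = h c ∨ app (mv c h) cs2 (c+2) = h (c+1) := by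
      by_cases hc2 : c ∈ cs2
      · obtain ⟨l, r, rfl, hr⟩ := split_last cs2 hc2
        have hv2 := hv.2.2
        rw [Valid_append] at hv2
        have hk : app (mv c h) l ∈ C := H.app_mem l _ hh' hv2.1
        have havk : avail R c (app (mv c h) l) := hv2.2.1
        have hlen : l.length < n := by rw [← hn]; simp; omega
        have hsp := ih _ hlen l _ rfl hh' hv2.1 c hav' havk
        have hsp2 := (samePair_mv c h).trans hsp
        rw [app_append, app]
        rw [unchanged r _ (fun d hd => by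
          have := hc d (by simp [hd])
          have : d ≠ c := by rintro rfl; exact hr hd
          omega)]
        rw [mv_2]
        rcases hsp2 with h1 | h1
        · right; exact h1.2
        · left; exact h1.2
      · right
        rw [unchanged cs2 _ (fun d hd => by
          have := hc d (by simp [hd])
          have : d ≠ c := by rintro rfl; exact hc2 hd
          omega)]
        rw [mv_2]
    rw [← v1, hav.2] at hne
    rcases hx with hx | hx
    · exact hne hx
    · -- triangle
      have r1 : R (h c) (h (c+1)) := hav.1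
      have r2 : R (f (c+2)) (f (c+3)) := hp.1
      have r3 : R (app (mv c h) cs2 (c+2)) (app (mv c h) cs2 (c+3)) := hq.1
      rw [show c+2+1 = c+3 from rfl] at u1
      rw [hx, u1] at r3
      rw [← v1, hav.2] at r2
      exact H.tri _ _ _ r1 r3 r2

lemma Sys.pair' (H : Sys R C) {f g : ℕ → A} (hf : f ∈ C) (hg : g ∈ C) {p : ℕ}
    (hp : avail R p f) (hq : avail R p g) : SamePair p f g := by
  obtain ⟨cs, hv, rfl⟩ := H.conn f hf g hg
  exact H.pair _ cs f rfl hf hv p hp hq

/-- induction over the class -/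
lemma Sys.induct (H : Sys R C) (Q : (ℕ → A) → Prop) {g : ℕ → A} (hg : g ∈ C) (hQ : Q g)
    (hstep : ∀ w ∈ C, ∀ c, avail R c w → Q w → Q (mv c w)) : ∀ w ∈ C, Q w := by
  have key : ∀ (cs : List ℕ) (f : ℕ → A), f ∈ C → Valid R f cs → Q f → Q (app f cs) := by
    intro cs
    induction cs with
    | nil => intro f _ _ h; exact h
    | cons c cs ih =>
      intro f hf hv h
      exact ih _ (H.closed f hf c hv.1) hv.2 (hstep f hf c hv.1 h)
  intro w hw
  obtain ⟨cs, hv, rfl⟩ := H.conn g hg w hw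
  exact key cs g hg hv hQ

/-- both centres at distance two are available at a common word, up to letters -/
lemma Sys.common (H : Sys R C) : ∀ (n : ℕ) (cs : List ℕ) (f : ℕ → A), cs.length = n → f ∈ C →
    Valid R f cs → ∀ p, avail R p f → avail R (p+2) (app f cs) →
    ∃ h ∈ C, avail R p h ∧ ∃ g ∈ C, avail R (p+2) g ∧ g (p+2) = h (p+2) ∧ g (p+3) = h (p+3) := by
  intro n
  induction n using Nat.strong_induction_on with
  | _ n ih =>
  intro cs f hn hf hv p hp hq
  by_cases hpc : p ∈ cs
  · obtain ⟨cs1, cs2, rfl⟩ := List.append_of_mem hpc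
    rw [Valid_append] at hv
    have hlen2 : cs2.length < n := by rw [← hn]; simp; omega
    have hh : app f cs1 ∈ C := H.app_mem cs1 f hf hv.1
    have hav : avail R p (app f cs1) := hv.2.1
    have hav' : avail R p (mv p (app f cs1)) := avail_mv H.sym hav
    have hh' : mv p (app f cs1) ∈ C := H.closed _ hh p hav
    have hg : app f (cs1 ++ p :: cs2) = app (mv p (app f cs1)) cs2 := by
      rw [app_append, app]
    rw [hg] at hq
    exact ih _ hlen2 cs2 _ rfl hh' hv.2.2 p hav' hq
  by_cases hqc : p+2 ∈ cs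
  · obtain ⟨cs1, cs2, rfl⟩ := List.append_of_mem hqc
    rw [Valid_append] at hv
    have hlen1 : cs1.length < n := by rw [← hn]; simp
    exact ih _ hlen1 cs1 _ rfl hf hv.1 p hp hv.2.1
  · have hpP : p ∈ P R C := ⟨f, hf, hp⟩
    have hqP : p+2 ∈ P R C := ⟨_, H.app_mem cs f hf hv, hq⟩
    have hc : ∀ c ∈ cs, c ≠ p ∧ c ≠ p+1 ∧ p ≠ c+1 ∧ c ≠ p+2 ∧ c ≠ p+3 := by
      intro c hcm
      have hcP := H.mem_P_of_mem hf hv hcm
      refine ⟨?_, ?_, ?_, ?_, ?_⟩
      · rintro rfl; exact hpc hcm
      · rintro rfl; exact H.notP hpP hcP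
      · rintro rfl; exact H.notP hcP hpP
      · rintro rfl; exact hqc hcm
      · rintro rfl; exact H.notP hqP hcP
    refine ⟨f, hf, hp, app f cs, H.app_mem cs f hf hv, hq, ?_, ?_⟩
    · exact unchanged cs f (fun c hcm => by have := hc c hcm; omega)
    · exact unchanged cs f (fun c hcm => by have := hc c hcm; omega)

end Pool.Agent.V1154.BraidAbs
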